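import Pool.Agent.Lib.KN.Defs
import Pool.Agent.Lib.KX.B_DMZ

/-! Project kn: the metrics of Aubin along a filter. -/

open scoped Classical Topology ContDiff ENNReal ComplexOrder Matrix
open Set MeasureTheory Filter

noncomputable section

namespace Pool.Agent.Lib.KN

open Pool.Agent.Lib.HS32 Pool.Agent.Lib.DM.K63 Pool.Agent.Lib.ZE Pool.Agent.Lib.ZE.S0
open Pool.Agent.Lib.ZK (fm Env Sol)
open Pool.Agent.Lib.DX (fl la)
open Pool.Agent.Lib.DK63 (Au err ex_small ex_le)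

variable {n : ℕ} {M : Mf n} [M.Cpt] {ι : Type} [Fintype ι]

theorem aub5 (D : Dt M ι) (hA : HS.St_AUBIN) {R : ℝ → ℝ → Prop}
    (hR : ∀ᶠ e in 𝓝[>] (0 : ℝ), ∀ᶠ e' in 𝓝[>] (0 : ℝ), R e e') {η : ℝ} (η0 : 0 < η) :
    ∃ C₀ C₁ L c : ℝ, 0 < c ∧ ∀ ε > (0 : ℝ), ∃ e e' w Q b, R e e' ∧
      Au D C₀ C₁ L c η ε (D.th e e') w Q ∧ M.Sm b ∧ M.Le (D.T + M.hs w) Q ∧
      M.Le (∑ i, max (D.κ i) 0 • D.Θ i + M.hs b) Q := by
  have hm := D.kae.toMet
  obtain ⟨k1, ⟨C₀, k2⟩, k3, -, k5, k6, -, k8⟩ := zKT n M ι D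
  obtain ⟨CQ, CQ0, hQ⟩ := zQQ n M ι D
  obtain ⟨q, δ, Ck, q1, δ0, hk⟩ := D.klt
  obtain ⟨P, hP⟩ := sup_le hm C₀
  obtain ⟨-, fin, -, v0, -, -, hmu⟩ := mMU n M D.H hm
  set v := (M.mu D.H).real univ with hv
  obtain ⟨C₁, hC₁⟩ : ∃ C₁, C₁ = (1 + Ck / δ + P) / v := ⟨_, rfl⟩
  obtain ⟨S, S0, hS⟩ := ZK.n_UNI hA n M D.H C₀ 1 q (Real.exp (q * C₁) * Ck) D.pos D.kae q1
  obtain ⟨L, hL⟩ := ex_small (v + Ck) one_pos (show 0 < η / 3 by positivity)
  obtain ⟨ρ, hρ⟩ := ex_small (Real.exp C₁ * Ck) (sub_pos.2 q1) (show 0 < η / 3 by positivity)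
  have ha : ∀ e e' : ℝ, ∃ φ, 0 < e → 0 < e' → Env M (D.th e e') φ e' := fun e e' => by
    by_cases h : 0 < e ∧ 0 < e'
    · obtain ⟨ψ, p1, p2⟩ := k3 e h.1 e' h.2
      obtain ⟨φ, hφ⟩ := ZK.n_ENV hA n M D.H _ ψ e' D.pos D.kae (k1 e e') p1 p2 h.2
      exact ⟨φ, fun _ _ => hφ⟩
    · exact ⟨0, fun a b => absurd ⟨a, b⟩ h⟩
  choose a ha using ha
  refine ⟨C₀, C₁, L, η / 3 / (Real.exp C₁ * Real.exp ρ), by positivity, fun ε ε0 => ?_⟩
  obtain ⟨r, r0, hr⟩ := k8 ε ε0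
  obtain ⟨e, eR, e1, -, e2⟩ := (hR.and ((show ∀ᶠ e in 𝓝[>] (0 : ℝ), e ∈ Ioc 0 1 from
    Ioc_mem_nhdsGT one_pos).and (show ∀ᶠ e in 𝓝[>] (0 : ℝ), e ∈ Ioc 0 r from
      Ioc_mem_nhdsGT r0))).exists
  obtain ⟨B, hB⟩ := k5 a (fun e he e' he' => ha e e' he.1 he'.1) e e1
  obtain ⟨c, c0, hc⟩ := k6 1 one_pos e e1.1
  simp only [one_smul] at hc
  obtain ⟨ε₀, ε1, h0⟩ := err D (|C₁| + (B + (v + Ck) + S)) e1.1 CQ0 c0
  obtain ⟨e', fR, ⟨f1, f2⟩, -, f3⟩ := (eR.and ((show ∀ᶠ t in 𝓝[>] (0 : ℝ), t ∈ Ioc 0 e from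
    Ioc_mem_nhdsGT e1.1).and (show ∀ᶠ t in 𝓝[>] (0 : ℝ), t ∈ Ioc 0 ε₀ from
      Ioc_mem_nhdsGT ε1))).exists
  have f4 : e' ∈ Ioc (0 : ℝ) 1 := ⟨f1, f2.trans e1.2⟩
  obtain ⟨d₀, d0, h1⟩ := h0 e' ⟨f1, f3⟩
  obtain ⟨d, d1, d2⟩ : ∃ d, d ∈ Ioc (0 : ℝ) 1 ∧ d ≤ d₀ :=
    ⟨min 1 d₀, ⟨by positivity, min_le_left _ _⟩, min_le_right _ _⟩
  obtain ⟨χ1, Q1, Q2, Q3⟩ := hQ d d1.1
  have hE := ha e e' e1.1 f1
  obtain ⟨V, hV⟩ := ZK.n_EXS hA n M D.H _ _ D.pos D.kae (k1 e e') hE.sm hE.kae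
  obtain ⟨w, hw⟩ := hV _ χ1
  have g1 : ∫ x, Real.exp (-(q * D.χ d x)) ∂M.mu D.H ≤ Ck := by
    simpa only [Dt.χ, mul_neg, neg_neg] using (hk d d1).1
  have g2 : ∫ x, Real.exp (δ * D.χ d x) ∂M.mu D.H ≤ Ck := by
    simpa only [Dt.χ, mul_neg] using (hk d d1).2
  generalize D.χ d = χ at *
  have iq := int hm (χ1.const_mul q).neg.exp.continuous
  have i1 := int hm χ1.neg.exp.continuous
  have iw := int hm (hw.sm.sub χ1).exp.continuous
  have g3 : ∫ x, Real.exp (-χ x) ∂M.mu D.H ≤ v + Ck := by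
    refine (integral_mono i1 ((integrable_const 1).add iq) fun x => by
      simpa using ex_le (ρ := 0) (x := χ x) q1).trans ?_
    simp only [Pi.add_apply]
    rw [integral_add (integrable_const _) iq, integral_const, smul_eq_mul, mul_one]
    linarith
  have G0 := ZK48.le_psh (k2 e e1 e' f4) hw.kae.toMet.nonneg
  have ub : ∀ x, w x ≤ C₁ := fun x => by
    have m1 := integral_mono (int hm (hw.sm.sub χ1).continuous) iw fun x => by
      linarith [Real.add_one_le_exp (w x - χ x)]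
    have m2 := integral_mono (int hm (χ1.const_mul δ).continuous)
      (int hm (χ1.const_mul δ).exp.continuous) fun x => by linarith [Real.add_one_le_exp (δ * χ x)]
    rw [integral_sub (int hm hw.sm.continuous) (int hm χ1.continuous), hw.one] at m1
    rw [integral_const_mul] at m2
    have m3 := (le_div_iff₀' δ0).2 (m2.trans g2)
    rw [hC₁, le_div_iff₀ v0]
    linarith [hP w hw.sm G0 x]
  have Ck0 : 0 ≤ Ck := (integral_nonneg fun x => (Real.exp_pos _).le).trans g1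
  have bd : ∀ x, |w x| ≤ |C₁| + (B + (v + Ck) + S) := fun x => by
    obtain ⟨y, hy⟩ := hw.sm.exists_max
    have m1 := hS _ V _ χ w (k1 e e') (k2 e e1 e' f4)
      ⟨hE.sm, hE.kae, hE.np, fun ψ a b c x => (hE.mx ψ a b c x).trans (by linarith [f4.2])⟩ hw
      ((integral_mono (int hm ((hw.sm.sub χ1).const_mul q).exp.continuous)
        (iq.const_mul (Real.exp (q * C₁))) fun x => by
          rw [← Real.exp_add]
          exact Real.exp_le_exp.2 (by nlinarith [ub x])).trans (by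
        rw [integral_const_mul]
        exact mul_le_mul_of_nonneg_left g1 (Real.exp_pos _).le)) x y
    have m2 := integral_mono iw (i1.const_mul (Real.exp (w y))) fun x => by
      rw [← Real.exp_add]
      exact Real.exp_le_exp.2 (by linarith [hy x])
    rw [hw.one, integral_const_mul] at m2
    have m3 := mul_le_mul_of_nonneg_left
      (m2.trans (mul_le_mul_of_nonneg_left g3 (Real.exp_pos _).le)) (Real.exp_pos (-w y)).le
    rw [← mul_assoc, ← Real.exp_add, neg_add_cancel, Real.exp_zero, mul_one, one_mul] at m3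
    have m4 := abs_le.1 (hB e' f4 x)
    refine abs_le.2 ⟨?_, ?_⟩
    · linarith [Real.add_one_le_exp (-w y), abs_nonneg C₁]
    · linarith [ub x, le_abs_self C₁]
  have cv := hc e' f1 V χ w hw
  have ch := (hmu _ hw.kae.toMet).2.1
  simp only [hw.eq, mul_assoc, integral_const_mul] at ch
  have := (mMU n M _ hw.kae.toMet).2.1
  have vol : (M.mu (D.th e e' + M.hs w)).real univ = V := by
    simpa [hw.one] using ch fun _ => 1
  have sf := fun i => (QQ.bridge hm (D.sg i)).lsm d1.1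
  refine ⟨e, e', w, D.th e e' + M.hs w + D.Q CQ d, fun x => ∑ i, max (D.κ i) 0 * fl (D.σ i) d x,
    fR, ⟨k2 e e1 e' f4, hr e ⟨e1.1, e2⟩ e' ⟨f1, f2.trans e2⟩, hw.sm, ub, ⟨hw.kae, hw.kae.toForm.add Q1,
      by simpa using hw.kae.toMet.nonneg.add Q2, le0.2 fun b hb z hz => ?_, ?_⟩,
      fun T hT hc => ?_⟩, Mf.Sm.sum fun i _ => (sf i).const_mul _, fun b hb z hz => ?_,
    fun b hb z hz => ?_⟩
  rotate_right 2
  · refine (congrArg Matrix.PosSemidef ?_).mp (((Mf.psd_rsmul (le0.1 D.nβ b hb z hz) e1.1.le).add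
      (Mf.psd_rsmul (hm.pos b hb z hz).posSemidef f1.le)).add (le0.1 Q2 b hb z hz))
    simp only [Dt.th, Pi.add_apply, Pi.smul_apply]
    abel
  · refine (congrArg Matrix.PosSemidef ?_).mp ((hw.kae.pos b hb z hz).posSemidef.add
      (Mf.psd_rsmul (c := CQ * ∑ i, la (D.σ i) d (b.symm z)) (hm.pos b hb z hz).posSemidef
        (mul_nonneg CQ0 (Finset.sum_nonneg fun i _ =>
          div_nonneg d1.1.le (add_nonneg ((D.sg i).nn _) d1.1.le)))))
    have k := QQ.hs_sum Finset.univ (fun i => fl (D.σ i) d) (fun i => max (D.κ i) 0) sf b hb z hz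
    simp only [Dt.Q, Pi.add_apply, Pi.smul_apply, Finset.sum_apply, smul_add,
      Finset.sum_add_distrib, fm] at k ⊢
    rw [k]
    abel
  · have r := ((mHES n M).2.2.2.2.2.2.2.2.2 _ D.H hw.kae.toMet hm).2 b hb z hz
    simp only [hw.eq, Real.log_mul hw.vp.ne' (Real.exp_pos _).ne', Real.log_exp,
      add_comm (Real.log V)] at r
    rw [hs_add_const (hw.sm.sub χ1) _ b hb z hz, ((mLAP n M _ _ hw.sm χ1).1 0 b hb z hz).2.2.1] at r
    refine (congrArg Matrix.PosSemidef ?_).mp (le0.1 (Q3 e e1.1.le e' f1.le) b hb z hz)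
    simp only [Pi.add_apply, r]
    abel
  · simp only [Mf.tr_add (T := D.Q CQ d), hw.kae.toMet.tr_self]
    rw [integral_add (integrable_const _) (int hw.kae.toMet (tr_c hw.kae.toMet Q1.toTen)),
      integral_const, smul_eq_mul, vol]
    linarith [h1 d ⟨d1.1, d2⟩ w hw.sm hw.kae bd]
  · have mA : MeasurableSet ({x | w x < -L} ∪ T) :=
      (measurableSet_lt hw.sm.continuous.measurable measurable_const).union hT
    have iT := (integrable_const (μ := M.mu D.H) (Real.exp C₁ * Real.exp ρ)).indicator hT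
    rw [vol, ← integral_indicator_one mA, ch, mul_comm η]
    refine mul_le_mul_of_nonneg_left ((integral_mono_of_nonneg (g := fun x =>
      Real.exp (-(1 * L)) * Real.exp (-χ x) + T.indicator (fun _ => Real.exp C₁ * Real.exp ρ) x +
        Real.exp C₁ * Real.exp (-((q - 1) * ρ)) * Real.exp (-(q * χ x)))
      (.of_forall fun x => mul_nonneg (Real.exp_pos _).le (indicator_nonneg (by simp) x))
      (((i1.const_mul _).add iT).add (iq.const_mul _)) (.of_forall fun x => ?_)).trans ?_) hw.vp.le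
    · have p0 : 0 ≤ T.indicator (fun _ => Real.exp C₁ * Real.exp ρ) x :=
        indicator_nonneg (fun _ _ => by positivity) x
      have p1 : 0 ≤ Real.exp (-(1 * L)) * Real.exp (-χ x) := by positivity
      have p2 : 0 ≤ Real.exp C₁ * Real.exp (-((q - 1) * ρ)) * Real.exp (-(q * χ x)) := by
        positivity
      beta_reduce
      by_cases h : x ∈ T
      · rw [indicator_of_mem h, indicator_of_mem (mem_union_right _ h), Pi.one_apply, mul_one,
          sub_eq_add_neg, Real.exp_add]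
        nlinarith [mul_le_mul (Real.exp_le_exp.2 (ub x)) (ex_le (ρ := ρ) (x := χ x) q1)
          (Real.exp_pos _).le (Real.exp_pos _).le]
      by_cases h' : w x < -L
      · rw [indicator_of_mem (mem_union_left _ (show x ∈ {x | w x < -L} from h')), Pi.one_apply,
          mul_one, ← Real.exp_add (-_)]
        linarith [Real.exp_le_exp.2 (show w x - χ x ≤ -(1 * L) + -χ x by linarith)]
      · rw [indicator_of_notMem fun k => k.elim h' h, mul_zero]
        linarith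
    · rw [integral_add ((i1.const_mul _).fun_add iT) (iq.const_mul _),
        integral_add (i1.const_mul _) iT, integral_const_mul, integral_const_mul,
        integral_indicator_const _ hT, smul_eq_mul]
      rw [le_div_iff₀ (by positivity)] at hc
      nlinarith [mul_le_mul_of_nonneg_left g3 (Real.exp_pos (-(1 * L))).le,
        mul_le_mul_of_nonneg_left g1
          (mul_pos (Real.exp_pos C₁) (Real.exp_pos (-((q - 1) * ρ)))).le]

end Pool.Agent.Lib.KN
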