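import Pool.Agent.Lib.KN.Defs
import Pool.Agent.Lib.NV5.X_K63
import Pool.Agent.Lib.KP.All

/-! Project kn: from the slope to the trace. -/

open scoped Classical Topology ContDiff ComplexOrder Matrix
open Set MeasureTheory Filter Complex

noncomputable section

namespace Pool.Agent.Lib.KN

open Pool.Agent.Lib.HS32 Pool.Agent.Lib.DM.K63

variable {n : ℕ} {M : Mf n} {H A B : M.Fam (Mat n)}

theorem adj_chg (J A B : Mat n) : ((Jᴴ * A * J).adjugate * (Jᴴ * B * J)).trace =
    Jᴴ.det * J.det * (A.adjugate * B).trace := by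
  rw [Matrix.adjugate_mul_distrib, Matrix.adjugate_mul_distrib, Matrix.mul_assoc,
    Matrix.trace_mul_comm, Matrix.mul_assoc, Matrix.mul_assoc (Jᴴ * B), Matrix.mul_adjugate,
    Matrix.mul_assoc, Matrix.mul_assoc Jᴴ, ← Matrix.mul_assoc _ Jᴴ, Matrix.adjugate_mul]
  simp only [Matrix.mul_smul, Matrix.smul_mul, Matrix.mul_one, Matrix.one_mul, Matrix.trace_smul,
    smul_eq_mul]
  ring

theorem mx_inv (hH : M.Met H) (hA : M.Ten A) (hB : M.Ten B) :
    M.Inv fun e z => ((A e z).adjugate * B e z).trace / (H e z).det :=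
  fun e he e' he' x hx hx' => by
    have j := ((mTR n M).2.1 e he e' he' x hx hx').2.1
    beta_reduce
    rw [hA.cmp e he e' he' x hx hx', hB.cmp e he e' he' x hx hx', hH.cmp e he e' he' x hx hx',
      adj_chg, Matrix.det_mul, Matrix.det_mul, mul_right_comm _ _ (M.J e e' x).det,
      mul_div_mul_left _ _ (mul_ne_zero (by rwa [Matrix.det_conjTranspose, star_ne_zero]) j)]

theorem mx_c (hH : M.Met H) (hA : M.Ten A) (hB : M.Ten B) : Continuous (mx H A B) :=
  ((mx_inv hH hA hB).sm fun e he z hz => ((hA.sm e he z hz).adjugate.mul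
    (hB.sm e he z hz)).trace.mul ((hH.sm e he z hz).det.inv (hH.det_ne e he z hz))).continuous

open Polynomial in
theorem derH [M.Cpt] (hH : M.Met H) (hA : M.Form A) (hB : M.Form B) :
    HasDerivAt (fun t : ℝ => ∫ x, M.dq H (A + t • B) x ∂M.mu H)
      (∫ x, (mx H A B x).re ∂M.mu H) 0 := by
  have hF : ∀ t : ℝ, M.Form (A + t • B) := fun t => hA.add (hB.smul t)
  have hdq : ∀ (t : ℝ) x, ((M.dq H (A + t • B) x : ℝ) : ℂ) =
      (BCOH.pl (M.ev A x) (M.ev B x) * C (M.ev H x).det⁻¹).eval (t : ℂ) := fun t x => by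
    have h := ((mINV n M H hH).2.1 _ (hF t) (M.ch x) (Mf.ch_mem x) _ (Mf.ch_tgt x)).2.1
    rw [Mf.ch_symm] at h
    rw [h, eval_mul, eval_C, BCOH.pl_eval, div_eq_mul_inv]
    rfl
  have h := poly_der (M.mu H) (fun x => BCOH.pl (M.ev A x) (M.ev B x) * C (M.ev H x).det⁻¹) n
    (fun x => (natDegree_mul_C_le _ _).trans ((natDegree_det_X_add_C_le _ _).trans (by simp)))
    (fun t => by
      simp only [← hdq]
      exact (int hH (dq_c hH (hF t).toTen)).ofReal) 0
  have e : ∀ x, (derivative (BCOH.pl (M.ev A x) (M.ev B x) * C (M.ev H x).det⁻¹)).eval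
      ((0 : ℝ) : ℂ) = mx H A B x := fun x => by
    rw [derivative_mul, derivative_C, mul_zero, add_zero, eval_mul, eval_C, BCOH.pl_deriv,
      ofReal_zero, zero_smul, add_zero, ← div_eq_mul_inv]
    rfl
  simp only [← hdq, e, integral_complex_ofReal] at h
  have k := reCLM.hasFDerivAt.comp_hasDerivAt (0 : ℝ) h
  rw [← reCLM.integral_comp_comm ((mMU n M H hH).2.2.2.2.1 ℂ _ (mx_c hH hA.toTen hB.toTen))] at k
  exact k

theorem avg5 [M.Cpt] {ι : Type} [Fintype ι] {D : ZE.Dt M ι} {Ψ : M.Fam (Mat n)} (cΨ : M.Clo Ψ)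
    (h : Slp D Ψ) : Avg D Ψ := by
  obtain ⟨C, g, sg, h⟩ := h
  refine ⟨max C 0, le_max_right _ _, h.mono fun e he => he.mono fun e' ht w sw kw => ?_⟩
  have cα : M.Clo (D.th e e') := (D.cT.add (D.cβ.smul e)).add (D.kae.toClo.smul e')
  generalize D.th e e' = α at *
  have hG := kw.toMet
  have hH := D.kae.toMet
  obtain ⟨-, fin, -, v0, -⟩ := mMU n M _ hG
  have d := der0 hG cΨ.toForm (w := fun _ => 1) continuous_const
  have e1 : ∀ t : ℝ, ∫ x, (1 : ℝ) * M.dq (α + M.hs w) (α + M.hs w + t • Ψ) x ∂M.mu (α + M.hs w) =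
      ∫ x, M.dq D.H (α + M.hs g + t • Ψ) x ∂M.mu D.H := fun t => by
    rw [chg hH hG (hG.toForm.add (cΨ.toForm.smul t)) fun _ => 1, add_right_comm α (M.hs w),
      add_right_comm α (M.hs g), mCOH n M D.H _ g hH (cα.add (cΨ.smul t)) sg]
    simpa using mCOH n M D.H _ w hH (cα.add (cΨ.smul t)) sw
  have e0 : ∫ x, M.dq D.H (α + M.hs g) x ∂M.mu D.H = (M.mu (α + M.hs w)).real univ := by
    simpa [hG.dq_self] using (e1 0).symm
  simp only [e1] at d
  rw [e0, ← d.unique (derH hH (cα.add ((mHES n M).1 g sg)).toForm cΨ.toForm)] at ht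
  obtain ⟨b, c, sb, hb⟩ := KP.aPOI n M _ _ D.pos kw ((mINV n M _ hG).1 Ψ cΨ.toTen).2.1
  have z := ((mGRN n M).2 _ b b kw sb sb).1
  simp only [hb] at z
  rw [integral_sub (integrable_const _) (int hG (tr_c hG cΨ.toTen)), integral_const,
    smul_eq_mul] at z
  simp only [one_mul] at ht
  refine ⟨b, sb, fun x => le_max_of_le_left ?_⟩
  have := hb x
  rw [Mf.tr_add, show M.tr _ (M.hs b) x = _ from this, add_sub_cancel]
  exact le_of_mul_le_mul_left (by linarith) v0

end Pool.Agent.Lib.KN
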