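import Pool.Agent.Lib.KN.Top
import Pool.Agent.Lib.KF.Top

/-! Project kn: the case of the trivial bundle. -/

open scoped Classical Topology ContDiff ComplexOrder Matrix Manifold
open Set Filter Complex

noncomputable section

namespace Pool.Agent.Lib.KN

open Pool.Agent.Lib.SV (E Pluri Cells)
open Pool.Agent.Lib.HS (inChart)
open Pool.Agent.Lib.HS32 Pool.Agent.Lib.HS.BBR Pool.Agent.Lib.KP.T6
open Pool.Agent.Lib.GH Pool.Agent.Lib.K3S Pool.Agent.Lib.KS Pool.Agent.Lib.KF

theorem cel {n : ℕ} {X : Type} [TopologicalSpace X] [ChartedSpace (E n) X] [CompactSpace X] :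
    ∃ (r : ℕ) (x : Fin r → X) (B : Fin r → Set (E n)), Cells x B := by
  obtain ⟨t, ht⟩ := isCompact_univ.elim_finite_subcover (fun x : X => (chartAt (E n) x).source)
    (fun x => (chartAt (E n) x).open_source) fun x _ => mem_iUnion.2 ⟨x, mem_chart_source _ x⟩
  let x : Fin t.card → X := fun k => t.equivFin.symm k
  let c := fun k => chartAt (E n) (x k)
  refine ⟨_, x, fun k => (c k).target \ ((c k).target ∩ (c k).symm ⁻¹' ⋃ j < k, (c j).source),
    fun k => (c k).open_target.measurableSet.diff ((c k).continuousOn_symm.isOpen_inter_preimage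
      (c k).open_target (isOpen_iUnion fun j => isOpen_iUnion fun _ =>
        (c j).open_source)).measurableSet, fun k => sdiff_subset, fun y => ?_⟩
  have h1 : ∀ k, y ∈ (c k).symm '' ((c k).target \ ((c k).target ∩ (c k).symm ⁻¹'
      ⋃ j < k, (c j).source)) ↔ y ∈ (c k).source ∧ ∀ j < k, y ∉ (c j).source := fun k => by
    refine ⟨?_, fun h => ⟨c k y, ⟨(c k).map_source h.1, fun d => ?_⟩, (c k).left_inv h.1⟩⟩
    · rintro ⟨z, ⟨z1, z2⟩, rfl⟩
      exact ⟨(c k).map_target z1, fun j hj d => z2 ⟨z1, mem_iUnion₂.2 ⟨j, hj, d⟩⟩⟩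
    · obtain ⟨j, hj, d⟩ := mem_iUnion₂.1 d.2
      rw [(c k).left_inv h.1] at d
      exact h.2 j hj d
  obtain ⟨a, ha, hy⟩ := mem_iUnion₂.1 (ht (mem_univ y))
  obtain ⟨k, k1, k2⟩ := wellFounded_lt.has_min {k | y ∈ (c k).source}
    ⟨t.equivFin ⟨a, ha⟩, by simpa [c, x] using hy⟩
  refine ⟨k, (h1 k).2 ⟨k1, fun j hj d => k2 j d hj⟩, fun j hj => ?_⟩
  exact le_antisymm (not_lt.1 fun d => ((h1 j).1 hj).2 k d k1) (not_lt.1 (k2 j ((h1 j).1 hj).1))

/-- The theorem without twist is the case of the trivial bundle. -/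
theorem old (hK : St_KN) : St_KF := by
  intro n X ι I _ _ _ _ _ _ _ G β U f u a q d hn hG hβ hC hP ha hN ⟨C, hq⟩
  refine hK n X ι I G β U f u a (fun _ _ _ => 1) q d hn hG hβ hC hP ha hN
    (fun i j x _ => ⟨by simp [KP.HolAt], one_ne_zero, fun _ _ => (one_mul _).symm⟩) ?_
    ⟨C, hq.mono ?_⟩
  · obtain ⟨c, c0, e, he⟩ := BRG.den ha
    obtain ⟨h, i, D, o⟩ := aBR0 _ X ι I G β U f u c e hn hG hβ hC c0 (by simpa only [he] using hN)
    obtain ⟨φ, _, gl, hs⟩ := hN 1 one_pos
    obtain ⟨g, -, hg⟩ := kKEY n X ι I U u h i D.L D.φ _ φ o.sub o.L D.wt gl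
      fun j y hy => (hs j y hy).1
    obtain ⟨r₀, x, B, ce⟩ := cel (n := n) (X := X)
    choose j hj using h.cov
    have sl : ∀ y : X, ContDiffAt ℝ ∞ (fun z => 1 * Real.log (inChart G y z).det.re)
        (chartAt (E n) y y) := fun y => contDiffAt_const.mul ((mCOF n _ _ (hG.smooth y)).2.2.2.2.2
      (Mf.AllOn.ev (HW.kae hG).pos (HW.ch_mem y) (mem_chart_target (E n) y))).2.1
    refine ⟨φ, 0, fun y => hess (fun z => ((φ (j y) ((chartAt (E n) y).symm z) +
      1 * Real.log (inChart G y z).det.re : ℝ) : ℂ)) (chartAt (E n) y y), 0, r₀, x, B, 0, gl,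
      fun k y hy => ⟨(hs k y hy).1, hess_herm ((hs _ y (hj y)).1.add (sl y)), fun w => ?_⟩,
      fun _ _ _ _ => by simp, fun k y _ => ⟨contDiffAt_const, Matrix.isHermitian_zero,
        fun w => by simp [HW.levi]⟩, ce, .of_forall fun s => .of_forall fun t => by simp [inChart]⟩
    refine (HW.levi_eq ((hs k y hy).1.add (sl y)) w).trans (congrArg (nq · w) ?_)
    obtain ⟨r, r1, r2, r3, r4⟩ : ∃ r : OpenPartialHomeomorph X (E n), r ∈ h.M.C ∧ y ∈ r.source ∧
        (r : X → E n) = chartAt (E n) y ∧ (r.symm : E n → X) = (chartAt (E n) y).symm :=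
      restr (mf n X) (U := U) h.opn h.cov (HW.ch_mem y) (mem_chart_source (E n) y)
    have t := fun l (hl : y ∈ U l) =>
      (hg r r1 l _ (r.map_source r2) (by rwa [r.left_inv r2])).2
    rw [r3, r4] at t
    simp only [ofReal_add]
    exact (hess_add (cd_ofReal (hs k y hy).1) (cd_ofReal (sl y))).trans
      ((congrArg (· + _) ((t k hy).trans (t _ (hj y)).symm)).trans
        (hess_add (cd_ofReal (hs _ y (hj y)).1) (cd_ofReal (sl y))).symm)
  · rintro b ⟨k, s, s1, s2, s3⟩
    refine ⟨k, fun l i => (U i).indicator (s l), s1, Fintype.linearIndependent_iff.2 fun c hc =>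
      Fintype.linearIndependent_iff.1 s2 c (funext fun x => ?_), fun l => Submodule.subset_span fun i x =>
        ⟨fun h => indicator_of_notMem h _, fun h => ⟨fun j k => by simp [h, k], fun w =>
          (s3 l x w).congr_of_eventuallyEq ?_⟩⟩⟩
    · obtain ⟨i, hi⟩ := hC.cov x
      simpa [hi] using congrFun (congrFun hc i) x
    · filter_upwards [((chartAt (E n) x).tendsto_symm (mem_chart_source _ x)).eventually
        ((hC.opn i).mem_nhds h)] with z hz
      rw [indicator_of_mem hz]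

end Pool.Agent.Lib.KN
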