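import Pool.Agent.Lib.KN.Defs
import Pool.Agent.Lib.KX.B_CR4

/-! Project kn: the rule of Cramer with a further twist. -/

open scoped Classical Topology Matrix
open Set Filter

noncomputable section

namespace Pool.Agent.Lib.KN

open Pool.Agent.Lib.SV (E)
open Pool.Agent.Lib.HS32 Pool.Agent.Lib.HLK Pool.Agent.Lib.KX
open Pool.Agent.Lib.RAA (kp kq)
open Pool.Agent.Lib.NV5.CRMb (mn comb big)
open Pool.Agent.Lib.K3S.TW (sm2)

open CR4 in
theorem cr5 {n : ℕ} {M : Mf n} [M.Cpt] {L Λ : M.Co} {d : ℕ} (h : Mv5 L Λ d) :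
    ∃ r : ℕ, Pq5 L (Λ.pw r) d fun _ _ _ _ => True := by
  obtain ⟨N, B, C, β, h⟩ := h
  let T := {p : ℕ × M.Fam ((Fin N → Fin n) → ℂ) //
    Lz univ N B (sm2 (L.pw p.1) Λ) p.2 ∧ M.All fun e z => Ab β (p.2 e z)}
  let Q : ℕ → Prop := fun r => ∃ (α : Fin r → T), ∃ e ∈ M.C, ∃ z ∈ e.target, ∃ I,
    mn (fun b : T => b.1.2 e z) α I ≠ 0
  obtain ⟨r, ⟨α, e₀, he₀, z₀, hz₀, I₀, h₀⟩, hr⟩ : ∃ r, Q r ∧ ¬ Q (r + 1) := by
    by_contra c
    obtain ⟨x⟩ : Nonempty M.X := inferInstance
    have : ∀ r, Q r := Nat.rec ⟨Fin.elim0, _, ((mTR n M).1 x).1, _,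
      (M.ch x).map_source ((mTR n M).1 x).2, Fin.elim0, by simp [mn]⟩
      fun r hr => by_contra fun h' => c ⟨r, hr, h'⟩
    obtain ⟨α, e, -, z, -, I, k⟩ := this _
    exact k (big _ (Nat.lt_succ_self _) α I)
  have hz : ∀ e ∈ M.C, ∀ z ∈ e.target, ∀ α : Fin (r + 1) → T, ∀ I,
    mn (fun b : T => b.1.2 e z) α I = 0 := fun e he z hz α I =>
      by_contra fun c => hr ⟨α, e, he, z, hz, I, c⟩
  let t : (Fin r → T) → M.Fam (_ → ℂ) := fun γ e z => tn fun i => (γ i).1.2 e z
  have ht : ∀ γ, M.All fun e z => HolN (t γ e) z := fun γ e he z hz =>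
    hol fun i => (γ i).2.1.hol e he z hz trivial
  have t₀ : ∀ γ z, t γ e₀ z ((bl n r N).symm I₀) = mn (fun b : T => b.1.2 e₀ z) γ I₀ :=
    fun γ z => by
      simp only [t, tn, Equiv.apply_symm_apply]
      rfl
  refine ⟨r, _, r * B, (∑ i, (α i).1.1 + 1) ^ d * (C * r),
    fun p => finProdFinEquiv (Prod.map id β (finProdFinEquiv.symm p)),
    fun a => {s | ∃ γ, ∑ i, (γ i).1.1 = a ∧ s = t γ}, ?_, ?_,
    infinite_of_forall_exists_gt fun b => ?_⟩
  · rintro _ _ ⟨γ, rfl, rfl⟩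
    refine ⟨⟨fun e he z hz _ => ht γ e he z hz, fun e he e' he' x hx hx' _ => Eq.trans ?_
      (law _ _ _ _ fun i => (γ i).2.1.law e he e' he' x hx hx' trivial)⟩,
      fun e he z hz => alt fun i => (γ i).2.2 e he z hz, trivial⟩
    simp only [Finset.prod_mul_distrib, Finset.prod_pow_eq_pow_sum, Finset.sum_const,
      Finset.card_univ, Fintype.card_fin, Mf.Co.pw, smul_eq_mul, sm2, Finset.prod_const]
    rfl
  · rintro _ _ _ ⟨γ, -, rfl⟩ _ ⟨γ', -, rfl⟩ e he z hz' K K'
    exact NV5.CRMb.prop _ (fun _ => True) (fun a _ => hz e he z hz' a) γ γ' (fun _ => trivial)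
      (fun _ => trivial) (bl n r N K) (bl n r N K')
  obtain ⟨a, ⟨k, V, v1, v2, v3⟩, hb⟩ := h.exists_gt b
  let u : Fin r → Fin k → Fin r → T := fun i s => Function.update α i ⟨(a, V s), v3 s⟩
  obtain ⟨i, k', g, g1, g2⟩ := CRQ.pig
    (W := {p : M.Ch × E n // p.1 ∈ M.C ∧ p.2 ∈ p.1.target} → _ → ℂ)
    (fun i s p => t (u i s) p.1.1 p.1.2) (fun c hc => v2 c fun e he z hz' => by_contra fun k => by
      refine (K3E.bID n M _ (fun e e' x => ((M.J e e' x).det ^ B * (sm2 (L.pw a) Λ).c e e' x)⁻¹ •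
        kp N (M.J e e' x)) 0 (fun e z => ∑ s, c s • V s e z) ⟨fun e he z hz B => ?_,
          ⟨e, he, z, hz', k⟩, fun e he e' he' x hx hx' => ?_⟩ e₀ he₀ z₀ hz₀).elim fun B hB => hB ?_
      rotate_right
      · filter_upwards [e₀.open_target.mem_nhds hz₀, ((continuous_apply _).continuousAt.comp
          (ht α e₀ he₀ z₀ hz₀).self_of_nhds.continuousAt).eventually_ne ((t₀ α z₀).trans_ne h₀)]
          with w h1 h2
        replace h2 := (t₀ α w).symm.trans_ne h2
        choose y hy using fun s => comb _ α I₀ h2 ⟨(a, V s), v3 s⟩ (hz e₀ he₀ w h1 _)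
        have h3 : ∀ i, ∑ s, c s * y s i = 0 := fun i => by
          have := congrFun (congrFun (hc i) ⟨(e₀, w), he₀, h1⟩) ((bl n r N).symm I₀)
          simp only [Finset.sum_apply, Pi.smul_apply, t₀, smul_eq_mul, Pi.zero_apply] at this
          refine (mul_eq_zero_iff_right h2).1 (Eq.trans ?_ this)
          rw [Finset.sum_mul]
          refine Finset.sum_congr rfl fun s _ => ?_
          rw [mul_assoc, mn, ← smul_eq_mul (y s i), ← Matrix.det_updateRow_sum]
          refine congrArg (_ * Matrix.det ·) (Matrix.ext fun l j => ?_)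
          by_cases hl : l = i
          · simpa [u, hl, Finset.sum_apply] using (hy s _).symm
          · simp [u, hl]
        have h4 : ∀ s, V s e₀ w B = _ := fun s => hy s B
        simp only [not_not, Finset.sum_apply, Pi.smul_apply, smul_eq_mul, h4, Finset.mul_sum,
          ← mul_assoc]
        rw [Finset.sum_comm]
        simp only [← Finset.sum_mul, h3, zero_mul, Finset.sum_const_zero]
      · filter_upwards [eventually_all.2 fun s => (v3 s).1.hol e he z hz trivial] with w hw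
        simp only [Finset.sum_apply, Pi.smul_apply, smul_eq_mul]
        exact DifferentiableAt.fun_sum fun s _ => (differentiableAt_pi.1 (hw s) B).const_mul _
      · have h1 := mul_ne_zero (pow_ne_zero B ((mTR n M).2.1 e he e' he' x hx hx').2.1)
          ((sm2 (L.pw a) Λ).ne e he e' he' x hx hx')
        have h2 := fun s => (v3 s).1.law e he e' he' x hx hx' trivial
        beta_reduce at h2 ⊢
        simp only [Matrix.smul_mulVec, Matrix.mulVec_sum, Matrix.mulVec_smul, ← h2, pow_zero,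
          inv_one, one_smul, Finset.smul_sum, inv_smul_smul₀ h1])
    (Nat.pos_of_ne_zero fun c => by simp [c] at v1)
  have e : ∀ s, ∑ l, (u i s l).1.1 = a + ∑ l ∈ Finset.univ \ {i}, (α l).1.1 := fun s => by
    simp only [u, Function.apply_update fun _ (b : T) => b.1.1]
    exact Finset.sum_update_of_mem (Finset.mem_univ i) _ _
  have e' := Finset.sum_le_sum_of_subset (f := fun l => (α l).1.1)
    (Finset.subset_univ (Finset.univ \ {i}))
  refine ⟨_, ⟨k', fun s => t (u i (g s)), ?_, fun c hc => funext (Fintype.linearIndependent_iff.1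
    g2 c (funext fun p => ?_)), fun s => ⟨_, e _, rfl⟩⟩, hb.trans_le (Nat.le_add_right _ _)⟩
  · rw [mul_assoc, mul_assoc C]
    refine le_trans ?_ (Nat.mul_le_mul_left _ (v1.trans (Nat.mul_le_mul_left _ g1)))
    rw [← mul_pow]
    exact Nat.pow_le_pow_left (by nlinarith [Nat.zero_le ((∑ i, (α i).1.1) * a)]) d
  · rw [Finset.sum_apply]
    exact hc _ p.2.1 _ p.2.2

end Pool.Agent.Lib.KN
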