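import Pool.Agent.Lib.KX.Blue

/-! Project kn: tensors with a further twist. -/

open scoped Classical Topology ContDiff ComplexOrder Matrix ENNReal
open Set MeasureTheory Complex Metric Filter

noncomputable section

namespace Pool.Agent.Lib.KN

open Pool.Agent.Lib.HS32 Pool.Agent.Lib.KX
open Pool.Agent.Lib.DM (Pr ll)
open Pool.Agent.Lib.K3S.TW (sm2)

variable {n : ℕ} {M : Mf n}

/-- Many holomorphic tensors with values in `B K + a L + Λ`. -/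
def Mv5 (L Λ : M.Co) (d : ℕ) : Prop := ∃ (N B C : ℕ) (β : Fin N → Fin B),
  {a : ℕ | ∃ (k : ℕ) (V : Fin k → M.Fam ((Fin N → Fin n) → ℂ)), (a + 1) ^ d ≤ C * k ∧ KS.Ind V ∧
    ∀ s, Lz univ N B (sm2 (L.pw a) Λ) (V s) ∧ M.All fun e z => Ab β (V s e z)}.Infinite

/-- Many proportional tensors with values in `B K + a L + Λ`, all with the property `R`. -/
def Pq5 (L Λ : M.Co) (d : ℕ)
    (R : ∀ N : ℕ, ℕ → ℕ → M.Fam ((Fin N → Fin n) → ℂ) → Prop) : Prop :=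
  ∃ (N B C : ℕ) (β : Fin N → Fin B) (S : ℕ → Set (M.Fam ((Fin N → Fin n) → ℂ))),
  (∀ a, ∀ s ∈ S a, Lz univ N B (sm2 (L.pw a) Λ) s ∧ (M.All fun e z => Ab β (s e z)) ∧ R N B a s) ∧
  (∀ a a', ∀ s ∈ S a, ∀ t ∈ S a', M.All fun e z => ∀ I I', s e z I * t e z I' = s e z I' * t e z I) ∧
  {a : ℕ | ∃ (k : ℕ) (V : Fin k → M.Fam ((Fin N → Fin n) → ℂ)), (a + 1) ^ d ≤ C * k ∧
    KS.Ind V ∧ ∀ s, V s ∈ S a}.Infinite

/-- The function `g` on `O` is a quotient of two twisted tensors; only the trace of the second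
form is bounded. -/
def Tw5 (Θ₁ Θ₂ : M.Fam (Mat n)) (O : Set M.X) (g : M.X → ℂ) : Prop := ∃ B : ℝ, 0 ≤ B ∧
  ∀ (G Q : M.Fam (Mat n)) (b₁ b₂ : M.X → ℝ), M.Kae G → M.Form Q → M.Le 0 Q → M.Le 0 (Q + M.ric G) →
    M.Sm b₁ → M.Sm b₂ → M.Le (Θ₁ + M.hs b₁) Q → (∀ x, M.tr G (Θ₂ + M.hs b₂) x ≤ M.tr G Q x) →
    ∃ (V W : M.X → ℝ) (C l : ℝ), 0 < C ∧ 0 ≤ l ∧ Pr M G l C V W ∧ (∀ x, V x ≠ 0 ↔ x ∈ O) ∧
      (∀ x ∈ O, W x = V x * normSq (g x)) ∧ ∀ x, V x ≠ 0 → -(B * M.tr G Q x) ≤ ll M G V x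

/-- The density of a mixed volume. -/
def mx (H A B : M.Fam (Mat n)) : M.X → ℂ :=
  M.ev fun e z => ((A e z).adjugate * B e z).trace / (H e z).det

/-- The slope of `Ψ` is bounded near the nef class. -/
def Slp {ι : Type} [Fintype ι] (D : ZE.Dt M ι) (Ψ : M.Fam (Mat n)) : Prop :=
  ∃ (C : ℝ) (g : M.X → ℝ), M.Sm g ∧ ∀ᶠ e in 𝓝[>] (0 : ℝ), ∀ᶠ e' in 𝓝[>] (0 : ℝ),
    ∫ x, (mx D.H (D.th e e' + M.hs g) Ψ x).re ∂M.mu D.H ≤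
      C * ∫ x, M.dq D.H (D.th e e' + M.hs g) x ∂M.mu D.H

/-- The mean trace of `Ψ` is bounded near the nef class. -/
def Avg {ι : Type} [Fintype ι] (D : ZE.Dt M ι) (Ψ : M.Fam (Mat n)) : Prop := ∃ C : ℝ, 0 ≤ C ∧
  ∀ᶠ e in 𝓝[>] (0 : ℝ), ∀ᶠ e' in 𝓝[>] (0 : ℝ), ∀ w, M.Sm w → M.Kae (D.th e e' + M.hs w) →
    ∃ b, M.Sm b ∧ ∀ x, M.tr (D.th e e' + M.hs w) (Ψ + M.hs b) x ≤ C

end Pool.Agent.Lib.KN
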