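import Pool.Agent.Lib.KN.SDefs
import Pool.Agent.Lib.KF.Dic
import Pool.Agent.Lib.KX.Defs

/-! Project kn: twisted covariant tensors in all charts. -/

open scoped Classical Topology ContDiff Matrix Manifold
open Set Filter

noncomputable section

namespace Pool.Agent.Lib.KN

open Pool.Agent.Lib.SV (E jacAt)
open Pool.Agent.Lib.HS32 Pool.Agent.Lib.KS Pool.Agent.Lib.KF
open Pool.Agent.Lib.RAA (kp)
open Pool.Agent.Lib.HS (jacM)
open Pool.Agent.Lib.HS.BBR (mf)
open Pool.Agent.Lib.KS.DI1 (jj)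
open Pool.Agent.Lib.KX (Ab Lz)

/-- The twisted tensors form a subspace. -/
def TenM (n : ℕ) {X ι : Type} [TopologicalSpace X] [ChartedSpace (E n) X] (U : ι → Set X)
    (v : ι → ι → X → ℂ) (q a : ℕ) :
    Submodule ℂ (ι → X → MultilinearMap ℂ (fun _ : Fin q => E n) ℂ) where
  carrier := {α | ∀ i x, (x ∉ U i → α i x = 0) ∧ (x ∈ U i →
    (∀ j, x ∈ U j → α i x = v i j x • α j x) ∧ ∀ w : Fin q → E n, DifferentiableAt ℂ (fun z =>
      α i ((chartAt (E n) x).symm z) (fun l => jacM x z *ᵥ w l) * jacAt n X x z ^ a)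
        (chartAt (E n) x x))}
  add_mem' := fun {s t} hs ht i x => ⟨fun h => by simp [(hs i x).1 h, (ht i x).1 h], fun h =>
    ⟨fun j k => by rw [Pi.add_apply, Pi.add_apply, ((hs i x).2 h).1 j k, ((ht i x).2 h).1 j k,
      ← smul_add]; rfl, fun w => by
      simpa only [Pi.add_apply, add_apply, add_mul] using
        (((hs i x).2 h).2 w).fun_add (((ht i x).2 h).2 w)⟩⟩
  zero_mem' := fun i x => by simp
  smul_mem' := fun c s hs i x => ⟨fun h => by simp [(hs i x).1 h], fun h =>
    ⟨fun j k => by rw [Pi.smul_apply, Pi.smul_apply, ((hs i x).2 h).1 j k, smul_comm]; rfl,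
      fun w => by
      simpa only [Pi.smul_apply, smul_apply, smul_eq_mul, mul_assoc] using
        (((hs i x).2 h).2 w).const_mul c⟩⟩

theorem ten_eq (n : ℕ) {X ι : Type} [TopologicalSpace X] [ChartedSpace (E n) X] (U : ι → Set X)
    (v : ι → ι → X → ℂ) (q a : ℕ) : TensN n U v q a = TenM n U v q a :=
  Submodule.span_eq (TenM n U v q a)

variable {n q a : ℕ} {X : Type} [TopologicalSpace X] [ChartedSpace (E n) X]
  {β : X → MultilinearMap ℂ (fun _ : Fin q => E n) ℂ} {e : OpenPartialHomeomorph X (E n)}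
  [IsManifold 𝓘(ℂ, E n) ω X]

theorem fm5 (he : e ∈ (mf n X).C) {z : E n} (hz : z ∈ e.target) (hβ : ∀ w : Fin q → E n,
      DifferentiableAt ℂ (fun y => β ((chartAt (E n) (e.symm z)).symm y)
        (fun l => jacM (e.symm z) y *ᵥ w l) * jacAt n X (e.symm z) y ^ a)
        (chartAt (E n) (e.symm z) (e.symm z)))
    (j : Fin q → Fin n) : DifferentiableAt ℂ (fun w => fm a β e w j) z := by
  have hx := e.map_target hz
  have c := mem_chart_source (E n) (e.symm z)
  have t : HolN (chartAt (E n) (e.symm z) ∘ e.symm) (e (e.symm z)) :=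
    ((mTR n (mf n X)).2.1 _ (HW.ch_mem _) e he _ c hx).1
  rw [e.right_inv hz] at t
  have d : ∀ k, DifferentiableAt ℂ (fun w => fm a β (chartAt (E n) (e.symm z)) w k)
      ((chartAt (E n) (e.symm z) ∘ e.symm) z) := fun k => by
    simp only [fm, tq_co, ← BCHN.det_eq]
    exact hβ fun i => Pi.single (k i) 1
  refine (((mCHN n _ _ t).2.2.2.2.1.self_of_nhds.fun_pow a).fun_mul (DifferentiableAt.fun_sum
    (u := Finset.univ) fun k _ => (HasFDerivAt.finsetProd (u := Finset.univ) fun i _ =>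
      (((mHOL n _ _).2.2 (BCHN.hol_comp t (k i))).2.1 (j i)).self_of_nhds.congr_of_eventuallyEq
        (BCHN.jm_ev mHOL t (k i) (j i)) |>.hasFDerivAt).differentiableAt.fun_mul
      ((d k).comp z t.self_of_nhds))).congr_of_eventuallyEq ?_
  filter_upwards [(e.isOpen_inter_preimage_symm (chartAt (E n) (e.symm z)).open_source).mem_nhds
    ⟨hz, c⟩] with w hw
  have := fm_law (a := a) (β := β) (HW.ch_mem _) he hw.2 (e.map_target hw.1)
  rw [jj, e.right_inv hw.1] at this
  exact congrFun this j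

theorem fm6 {β' : X → MultilinearMap ℂ (fun _ : Fin q => E n) ℂ} {x : X} {c : ℂ}
    {e' : OpenPartialHomeomorph X (E n)} (he : e ∈ (mf n X).C) (he' : e' ∈ (mf n X).C)
    (hx : x ∈ e.source) (hx' : x ∈ e'.source) (h : β' x = c • β x) :
    fm a β' e' (e' x) = c • tq q a (jj e e' x) (fm a β e (e x)) := by
  rw [← fm_law he he' hx hx', fm_at hx', fm_at hx', h, map_smul, map_smul]

/-- The dictionary. -/
theorem dic5 {m : ℕ} {X ι I : Type} [TopologicalSpace X] [ChartedSpace (E (m + 1)) X]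
    [IsManifold 𝓘(ℂ, E (m + 1)) ω X] {U : ι → Set X} {u : I → ι → ι → X → ℂ}
    (h : Cv (m + 1) U u) {i : OpenPartialHomeomorph X (E (m + 1)) → ι}
    (hs : ∀ e : OpenPartialHomeomorph X _, e ∈ h.M.C → e.source ⊆ U (i e)) {v : ι → ι → X → ℂ}
    {Λ : h.M.Co} (hΛ : ∀ e e' x, Λ.c e e' x = v (i e') (i e) x) {k : ℕ} {α : Fin k → _}
    (hi : LinearIndependent ℂ α) (hα : ∀ j, α j ∈ TensN (m + 1) U v q a) :
    ∃ V : Fin k → h.M.Fam ((Fin (q * m) → Fin (m + 1)) → ℂ),
      Ind V ∧ ∀ s, Lz univ (q * m) (q + a) Λ (V s) ∧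
        h.M.All fun e z => Ab (fun p => (finProdFinEquiv.symm p).1) (V s e z) := by
  rw [ten_eq] at hα
  refine ⟨fun s (e : OpenPartialHomeomorph X _) z => lv q m *ᵥ fm a (α s (i e)) e z,
    fun c hc => funext (Fintype.linearIndependent_iff.1 hi c (funext fun j => funext fun x => ?_)),
    fun s => ⟨⟨fun e he z hz _ => ?_,
      fun (e : OpenPartialHomeomorph X _) he (e' : OpenPartialHomeomorph X _) he' (x : X) hx hx' _ => ?_⟩,
      fun e _ z _ => lv_alt _⟩⟩
  · have t := Submodule.sum_mem _ (t := Finset.univ) fun s _ => Submodule.smul_mem _ (c s) (hα s)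
    by_cases hj : x ∈ U j
    · obtain ⟨e, he, hx⟩ := h.M.cov x
      refine (((t j x).2 hj).1 _ (hs e he hx)).trans (smul_eq_zero_of_right _ ?_)
      refine fm_zero (a := a) he.1 hx (lv_inj (Eq.trans ?_ (hc e he _ (e.map_source hx))))
      simp only [fm, Finset.sum_apply, Pi.smul_apply, map_sum, map_smul, Matrix.mulVec_sum,
        Matrix.mulVec_smul]
      rfl
    · exact (t j x).1 hj
  · filter_upwards [e.open_target.eventually_mem hz] with w hw
    exact differentiableAt_pi.2 fun K => DifferentiableAt.fun_sum fun j _ =>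
      (fm5 he.1 hw ((hα s _ _).2 (hs e he (e.map_target hw))).2 j).const_mul _
  · have t := fm6 (a := a) he.1 he'.1 hx hx' (((hα s _ x).2 (hs e' he' hx')).1 _ (hs e he hx))
    refine Eq.trans ?_ (congrArg (fun y => kp _ (jj e e' x) *ᵥ lv q m *ᵥ y) t.symm)
    refine (congrArg (· • _) ((congrArg _ (hΛ e e' x)).trans (mul_comm _ _))).trans ?_
    rw [mul_smul]
    simp only [Matrix.mulVec_smul]
    refine congrArg (v (i e') (i e) x • ·) ?_
    refine (congrArg (· • _) ((pow_add _ _ _).trans (mul_comm _ _))).trans ?_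
    rw [mul_smul, lv_law, ← Matrix.mulVec_smul, ← Matrix.mulVec_smul]
    rfl

end Pool.Agent.Lib.KN
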