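import Pool.Agent.Lib.KN.Defs
import Pool.Agent.Lib.KX.All

/-! Project kn: the norms of two proportional twisted tensors, trace form. -/

open scoped Classical Topology ContDiff ComplexOrder Matrix ENNReal
open Set MeasureTheory Complex Metric Filter

noncomputable section

namespace Pool.Agent.Lib.KN

open Pool.Agent.Lib.SV (E nsq)
open Pool.Agent.Lib.HS32 Pool.Agent.Lib.DM Pool.Agent.Lib.KX
open Pool.Agent.Lib.RAA (kp hl)
open Pool.Agent.Lib.KT (Bd)

open PAZ in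
theorem paz5 {n : ℕ} {M : Mf n} [M.Cpt] {H Θ₁ Θ₂ : M.Fam (Mat n)} {p : M.X → ℝ} {g : M.X → ℂ}
    (hH : M.Met H) (f₂ : M.Form Θ₂) (hp : p ∈ Kz H Θ₁ Θ₂) (hg : Bd (Op p) p g) :
    Tw5 Θ₁ Θ₂ (Op p) g := by
  obtain ⟨τ, rfl⟩ := hp
  obtain ⟨t, ht, -, hO⟩ := aZNU n M H Θ₁ Θ₂ τ g hH hg
  obtain ⟨a, b, a0, b0, hab⟩ := τ.cn
  refine ⟨τ.B + (a + b), by positivity, fun G Q b₁ b₂ hG hQ Q0 hL s₁ s₂ l₁ l₂ => ?_⟩
  obtain ⟨hv, hC⟩ := dCRV n τ.N τ.B
  obtain ⟨r1, r2, -⟩ := (mINV n M G hG.toMet).1 Q hQ.toTen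
  obtain ⟨K, K0, hK⟩ := r2.exists_bound
  obtain ⟨C, C0, hC⟩ := hC M G hG.toMet
  have fR := f₂.add ((mHES n M).1 _ s₂).toForm
  have rR := ((mINV n M G hG.toMet).1 _ fR.toTen).1
  obtain ⟨C', C0', hC', -⟩ := (mBD n M G hG.toMet).1 Q hQ
  obtain ⟨C₂, C2, hC₂, -⟩ := (mBD n M G hG.toMet).1 _ fR
  obtain ⟨z₁, -, -, z₄, -, z₆⟩ := xZKT n M G τ.N τ.B τ.Λ τ.ψ hG.toMet τ.wt
  obtain ⟨sV, -, pV, lV⟩ := z₆ _ τ.lz
  have pH := ((xZKT n M H τ.N τ.B τ.Λ τ.ψ hH τ.wt).2.2.2.2.2 _ τ.lz).2.2.1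
  have near : M.All fun e z => ∀ᶠ w in 𝓝 z, SmM (G e) w ∧ (G e w).PosDef :=
    fun e he _ hz => (e.open_target.eventually_mem hz).mono fun w hw =>
      ⟨hG.sm e he w hw, hG.pos e he w hw⟩
  have pt : ∀ {p : M.X → Prop}, (M.All fun e z => p (e.symm z)) → ∀ x, p x := fun h x => by
    obtain ⟨e, he, hx⟩ := M.cov x
    exact e.left_inv hx ▸ h e he _ (e.map_source hx)
  let ρ : M.X → ℝ := fun x => Real.exp (-(a * b₁ x + b * b₂ x))
  have ρ0 : ∀ x, 0 < ρ x := fun x => Real.exp_pos _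
  have sρ : M.Sm ρ := fun e he z hz => (((contDiffAt_const.mul (s₁ e he z hz)).add
    (contDiffAt_const.mul (s₂ e he z hz))).neg).exp
  let V : M.X → ℝ := fun x => nw G τ.B τ.ψ τ.s x * ρ x
  let W : M.X → ℝ := fun x => nw G τ.B τ.ψ t x * ρ x
  have hV : M.Sm V := fun e he z hz => (sV e he z hz).mul (sρ e he z hz)
  have V0 : ∀ x, 0 ≤ V x := fun x => mul_nonneg (z₄ _ x) (ρ0 x).le
  have vs : M.All fun e z => V (e.symm z) ≠ 0 ↔ τ.s e z ≠ 0 := fun e he z hz =>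
    ((mul_ne_zero_iff_right (ρ0 _).ne').trans (z₄ _ _).lt_iff_ne'.symm).trans (pV e he z hz)
  have vo : ∀ x, V x ≠ 0 ↔ x ∈ Op (τ.pn H) := pt fun e he z hz =>
    (vs e he z hz).trans (pH e he z hz).symm
  have wv : ∀ x ∈ Op (τ.pn H), W x = V x * normSq (g x) :=
    pt (p := fun x => x ∈ Op (τ.pn H) → _) fun e he z hz h => by
      simp only [V, W]
      rw [z₁ _ _ τ.lz e he z hz trivial, z₁ _ _ ht e he z hz trivial]
      unfold uv
      rw [hO e he z hz h, NRM.hq_smul]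
      ring
  have eh : M.All fun e z => τ.s e z ≠ 0 → ∃ S : Mat n, S.PosSemidef ∧
      hl (V ∘ e.symm) z = hl (uv τ.N τ.B (G e) (τ.s e)) z - a • Q e z -
        b • (Θ₂ + M.hs b₂) e z + S :=
    fun e he z hz s0 => by
      have k := hv _ (τ.s e) z (near e he z hz) (τ.lz.hol e he z hz trivial)
      refine ⟨_, (l₁ e he z hz).smul a0, ?_⟩
      rw [hl_w (U := V ∘ e.symm) a b k.1 (k.2.2.1.not.2 s0) (τ.wt.sm e he z hz) (s₁ e he z hz) (s₂ e he z hz)
        ((e.open_target.eventually_mem hz).mono fun w hw => congrArg (· * ρ (e.symm w))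
          (z₁ _ _ τ.lz e he w hw trivial)), show hess _ z = _ from hab e he z hz]
      change _ - (_ + (a • M.hs b₁ e z + b • M.hs b₂ e z)) = _
      simp only [Pi.add_apply]
      module
  have lo : M.All fun e z => τ.s e z ≠ 0 → -((τ.B + (a + b)) * M.tr G Q (e.symm z)) ≤
      trm (G e z) (hl (V ∘ e.symm) z) := fun e he z hz s0 => by
    obtain ⟨S, hS, eS⟩ := eh e he z hz s0
    have k := xTRC n _ _ τ.β (G e) (Q e z) (τ.s e) z (near e he z hz)
      ((e.open_target.eventually_mem hz).mono fun w hw => hG.cl e he w hw)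
      (τ.lz.hol e he z hz trivial) (τ.alt e he z hz) (by simpa using Q0 e he z hz)
      (by simpa [Mf.ric, sub_eq_add_neg] using hL e he z hz) s0
    have k' := Mf.trace_inv_mul_nonneg (hG.pos e he z hz) hS
    have k₂ := mul_le_mul_of_nonneg_left (l₂ (e.symm z)) b0
    rw [rR e he z hz] at k₂
    rw [r1 e he z hz] at k₂ ⊢
    rw [eS]
    beta_reduce at k₂
    generalize (Θ₂ + M.hs b₂) e z = R at k₂ ⊢
    simp only [trm, Matrix.mul_add, Matrix.mul_sub, Matrix.mul_smul, Matrix.trace_add,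
      Matrix.trace_sub, Matrix.trace_smul, add_re, sub_re, smul_re, smul_eq_mul] at k ⊢
    linarith
  refine ⟨V, W, C + (a * C' + b * C₂), (τ.B + (a + b)) * K, by positivity, by positivity,
    ⟨hV, fun e he z hz => ((z₆ _ ht).1 e he z hz).mul (sρ e he z hz), V0,
      fun x => mul_nonneg (z₄ _ x) (ρ0 x).le, ?_, fun x hx => ?_⟩, vo, wv, fun x hx => ?_⟩
  · refine measure_mono_null (fun x hx => ?_) (xKIT n M G _ hG.toMet (lV τ.nz)).2.2.1
    exact fun h => (mul_pos h (ρ0 x)).ne' hx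
  · obtain ⟨e, he, hs'⟩ := M.cov x
    have hz := e.map_source hs'
    have hx' : V (e.symm (e x)) ≠ 0 := by rwa [e.left_inv hs']
    have s0 := (vs e he _ hz).1 hx'
    refine ⟨e, he, hs', g ∘ e.symm, hg.1 e he _ hz ((vo _).1 hx'), ?_, ?_, ?_⟩
    · filter_upwards [(hV e he _ hz).continuousAt.eventually_ne hx'] with w h
      exact wv _ ((vo _).1 h)
    · obtain ⟨S, hS, eS⟩ := eh e he _ hz s0
      have := (((hC e he _ hz _ (τ.lz.hol e he _ hz trivial) s0).add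
        ((hC' e he _ hz).smul a0)).add ((hC₂ e he _ hz).smul b0)).add hS
      rw [eS]
      refine cast (congrArg _ ?_) this
      simp only [Pi.smul_apply]
      module
    · exact (neg_le_neg (mul_le_mul_of_nonneg_left ((le_abs_self _).trans (hK _))
        (by positivity))).trans (lo e he _ hz s0)
  · obtain ⟨e, he, hs'⟩ := M.cov x
    have := lo e he _ (e.map_source hs') ((vs e he _ (e.map_source hs')).1 (by rwa [e.left_inv hs']))
    rwa [e.left_inv hs', ← PRK.ll_eq dLOG hG.toMet hV he hs' ((V0 x).lt_of_ne' hx)] at this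

end Pool.Agent.Lib.KN
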