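import Pool.Agent.Lib.KN.Aub5
import Pool.Agent.Lib.KN.Paz5

/-! Project kn: domination. -/

open scoped Classical Topology ContDiff ENNReal ComplexOrder Matrix
open Set MeasureTheory Filter

noncomputable section

namespace Pool.Agent.Lib.KN

open Complex Pool.Agent.Lib.HS32 Pool.Agent.Lib.HS32.Mf Pool.Agent.Lib.DM Pool.Agent.Lib.DM.K63
open Pool.Agent.Lib.KX
open Pool.Agent.Lib.DK63 (Au)

variable {n : ℕ} {M : Mf n} [M.Cpt] {ι : Type} [Fintype ι] {D : Pp M ι} {Ψ Θ₂ : M.Fam (Mat n)}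
  {r s : ℝ}

theorem aub6 (hA : HS.St_AUBIN) (r0 : 0 ≤ r) (s0 : 0 ≤ s)
    (hΘ : M.All fun e z => Θ₂ e z = r • Ψ e z + s • D.P e z) (hΨ : Avg D.toDt Ψ) {η : ℝ}
    (η0 : 0 < η) : ∃ C₀ C₁ L c k : ℝ, 0 < c ∧ 0 ≤ k ∧ ∀ ε > (0 : ℝ), ∃ α w Q Q' b,
      Au D.toDt C₀ C₁ L c η ε α w Q ∧ M.Form Q' ∧ M.Le 0 Q' ∧ M.Le 0 (Q' + M.ric (α + M.hs w)) ∧
      ∫ x, M.tr (α + M.hs w) Q' x ∂M.mu (α + M.hs w) ≤ k * (M.mu (α + M.hs w)).real univ ∧
      M.Sm b ∧ M.Le (D.T + M.hs w) Q' ∧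
      ∀ x, M.tr (α + M.hs w) (Θ₂ + M.hs b) x ≤ M.tr (α + M.hs w) Q' x := by
  obtain ⟨C, C0, hC⟩ := hΨ
  obtain ⟨C₀, C₁, L, c, c0, h⟩ := aub5 D.toDt hA hC η0
  refine ⟨C₀, C₁, L, c, (1 + s) * (n + 1) + r * C * n, c0, by positivity, fun ε ε0 => ?_⟩
  obtain ⟨e, e', w, Q, b, h0, h1, h2, h3, h4⟩ := h ε ε0
  obtain ⟨b', sb, hb⟩ := h0 w h1.sm h1.rc.kae
  have k1 := h1.rc.kae.toMet
  have k2 := h1.rc.nn
  have k3 := h1.rc.ric
  have k4 := h1.rc.int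
  have k5 := h1.rc.frm
  have fin := (mMU n M _ k1).2.1
  refine ⟨_, w, Q, (1 + s) • Q + (r * C) • (D.th e e' + M.hs w), fun x => r * b' x + s * b x, h1,
    ?_⟩
  generalize D.th e e' + M.hs w = G at *
  have le : M.Le Q ((1 + s) • Q + (r * C) • G) := fun a ha z hz => by
    refine (congrArg Matrix.PosSemidef ?_).mp ((psd_rsmul (k2 a ha z hz) s0).add
      (psd_rsmul (k1.pos a ha z hz).posSemidef (mul_nonneg r0 C0)))
    simp only [Pi.add_apply, Pi.smul_apply, Pi.zero_apply]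
    module
  have t : ∀ x, M.tr G ((1 + s) • Q + (r * C) • G) x = (1 + s) * M.tr G Q x + r * C * n :=
    fun x => by rw [tr_add, tr_smul, tr_smul, k1.tr_self]
  refine ⟨(k5.smul _).add (k1.toForm.smul _), k2.trans le, k3.trans (le.add (Le.refl _)), ?_,
    (sb.const_mul r).add (h2.const_mul s), h3.trans le, fun x => ?_⟩
  · simp only [t]
    rw [integral_add ((int k1 (tr_c k1 k5.toTen)).const_mul _) (integrable_const _),
      integral_const_mul, integral_const, smul_eq_mul]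
    nlinarith [mul_le_mul_of_nonneg_left k4 (show 0 ≤ 1 + s by positivity)]
  · have u : M.tr G (Θ₂ + M.hs fun x => r * b' x + s * b x) x =
        M.tr G (r • (Ψ + M.hs b') + s • (D.P + M.hs b)) x := by
      refine congrFun (tr_congr (fun _ _ _ _ => rfl) fun a ha z hz => ?_) x
      simp only [Pi.add_apply, Pi.smul_apply, hΘ a ha z hz,
        ((mLAP n M _ _ (sb.const_mul r) (h2.const_mul s)).1 0 a ha z hz).2.1,
        ((mLAP n M _ _ sb sb).1 r a ha z hz).2.2.2.1, ((mLAP n M _ _ h2 h2).1 s a ha z hz).2.2.2.1]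
      module
    have n1 : (1 : ℝ) ≤ n := Nat.one_le_cast.2 D.pos
    have h5 : M.Le (D.P + M.hs b) Q := h4
    rw [u, t, tr_add, tr_smul, tr_smul]
    nlinarith [mul_le_mul_of_nonneg_left (hb x) r0, k1.tr_nonneg k2 x,
      mul_le_mul_of_nonneg_left (k1.tr_mono h5 x) s0,
      mul_le_mul_of_nonneg_left n1 (mul_nonneg r0 C0)]

theorem dmz5 (hA : HS.St_AUBIN) (r0 : 0 ≤ r) (s0 : 0 ≤ s)
    (hΘ : M.All fun e z => Θ₂ e z = r • Ψ e z + s • D.P e z) (hΨ : Avg D.toDt Ψ) {O : Set M.X}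
    {g : M.X → ℂ} (ht : Tw5 D.T Θ₂ O g) : DK.Dom M D.H D.T O fun x => 1 + normSq (g x) := by
  obtain ⟨B, B0, hB⟩ := ht
  have hm := D.kae.toMet
  have fin := (mMU n M _ hm).2.1
  obtain ⟨C₀, C₁, L₁, c, l₀, c0, l0, hK⟩ :=
    aub6 hA r0 s0 hΘ hΨ (η := 1 / (8 * (2 ^ n + 1))) (by positivity)
  obtain ⟨α, A, α0, -, hS⟩ := GH76.skoda M C₀ hm
  obtain ⟨δ, δ0, δ1⟩ : ∃ δ : ℝ, 0 < δ ∧ 2 ^ (n + 2) * δ * (B * l₀) ≤ 1 :=
    ⟨1 / (2 ^ (n + 2) * (B * l₀ + 1)), by positivity, by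
      rw [mul_one_div, div_mul_eq_mul_div, div_le_one (by positivity)]
      exact mul_le_mul_of_nonneg_left (by linarith) (by positivity)⟩
  have lg : ∀ {V W : M.X → ℝ}, (∀ x, V x ≠ 0 ↔ x ∈ O) → (∀ x ∈ O, W x = V x * normSq (g x)) →
      ∀ x ∈ O, Real.log (V x + W x) - Real.log (V x) = Real.log (1 + normSq (g x)) :=
    fun h1 h2 x hx => by
      rw [h2 x hx, ← mul_one_add, Real.log_mul ((h1 x).2 hx)
        (add_pos_of_pos_of_nonneg one_pos (normSq_nonneg _)).ne', add_sub_cancel_left]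
  obtain ⟨_, _, _, Q₁, _, g, q1, q2, q3, -, g1, g2, g3⟩ := hK 1 one_pos
  obtain ⟨V₁, W₁, _, _, -, -, P₁, o₁, w₁, -⟩ :=
    hB _ Q₁ _ _ g.rc.kae q1 q2 q3 g.sm g1 g2 g3
  have mq : Measurable fun x => δ * (Real.log (V₁ x + W₁ x) - Real.log (V₁ x)) :=
    (((P₁.sV.add P₁.sW).continuous.measurable.log).sub
      P₁.sV.continuous.measurable.log).const_mul δ
  obtain ⟨L₂, hL⟩ := VOL.tail (M.mu D.H) mq (ENNReal.ofReal_pos.2 c0)
  obtain ⟨L, L0, L1⟩ : ∃ L : ℝ, 0 ≤ L ∧ L₂ + L₁ + C₁ ≤ L :=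
    ⟨max 0 _, le_max_left _ _, le_max_right _ _⟩
  refine ⟨δ, α, max A (L + 3), δ0, α0, fun ε ε0 K hc hO => ?_⟩
  obtain ⟨β, a, _, Q, _, h, p1, p2, p3, p4, h1, h2, h3⟩ := hK ε ε0
  have a1 := h.rc.kae
  have a6 := h.sm.add (sm_const (-C₁))
  have a7 : ∀ x, a x + -C₁ ≤ 0 := fun x => by linarith [h.ub x]
  have := (mMU n M _ a1.toMet).2.1
  obtain ⟨V, W, C', l, b1, b2, P, o, w, b3⟩ :=
    hB _ Q _ _ a1 p1 p2 p3 h.sm h1 h2 h3
  obtain ⟨u, u1, u2, ⟨x₀, u3⟩, u4⟩ := DK.dMVU DK.dVOL (dMAX hA) n M _ l (B * l₀) C' δ L V W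
    (fun x => B * M.tr (β + M.hs a) Q x) _ D.pos a1 P b1 b2 δ0.le
    (continuous_const.mul (tr_c a1.toMet p1.toTen))
    (fun x => mul_nonneg B0 (a1.toMet.tr_nonneg p2 x)) b3 (by positivity)
    (by rw [integral_const_mul, mul_assoc]; exact mul_le_mul_of_nonneg_left p4 B0) δ1
    a6.continuous a7 L0 (by
      have ae : ∀ᵐ x ∂M.mu (β + M.hs a), V x ≠ 0 := by simpa only [ae_iff, not_not] using P.nul
      have k := h.sml _ (measurableSet_lt measurable_const mq)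
        (ENNReal.toReal_le_of_le_ofReal c0.le hL)
      rw [one_div_mul_eq_div] at k
      refine le_trans (ENNReal.toReal_mono (measure_ne_top _ _)
        (measure_mono_ae (ae.mono fun x hx k => by_contra fun k' => ?_))) k
      have k1 : ¬a x < -L₁ := fun e => k' (Or.inl e)
      have k2 : ¬(L₂ : ℝ) < δ * (Real.log (V₁ x + W₁ x) - Real.log (V₁ x)) := fun e => k' (Or.inr e)
      have k3 : L < δ * (Real.log (V x + W x) - Real.log (V x)) - (a x + -C₁) := k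
      rw [lg o w x ((o x).1 hx), ← lg o₁ w₁ x ((o x).1 hx)] at k3
      linarith)
    K hc fun x hx => (o x).2 (hO hx)
  obtain ⟨y, hy⟩ := (u1.add h.sm).exists_max
  have sa := (u1.add h.sm).add (sm_const (-(u y + a y)))
  have l4 : M.Met (β + M.hs fun x => u x + a x + -(u y + a y)) := u2.toMet.congr fun e he z hz => by
    simp only [Pi.add_apply, hs_add_const (u1.add h.sm) _ e he z hz,
      ((mLAP n M _ _ u1 h.sm).1 0 e he z hz).2.1]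
    abel
  have n0 : ∀ x, u x + a x + -(u y + a y) ≤ 0 := fun x => by linarith [hy x]
  refine ⟨_, sa, (h.up _ sa l4).nonneg, n0, (hS _ sa (ZK48.le_psh h.le l4.nonneg) n0
    ⟨y, add_neg_cancel _⟩).trans (le_max_left _ _), fun x hx => ?_⟩
  have := u4 x hx
  rw [lg o w x (hO hx)] at this
  exact le_max_of_le_right (by linarith [hy x₀, a7 x])

theorem dom5 (hA : HS.St_AUBIN) (r0 : 0 ≤ r) (s0 : 0 ≤ s) (f₂ : M.Form Θ₂)
    (hΘ : M.All fun e z => Θ₂ e z = r • Ψ e z + s • D.P e z) (hΨ : Avg D.toDt Ψ) {p : M.X → ℝ}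
    (κ : Type) [Fintype κ] [Nonempty κ] (g : κ → M.X → ℂ) (hp : p ∈ Kz D.H D.T Θ₂)
    (hg : ∀ i, RBR.Tm p (g i)) : DK.Dom M D.H D.T (Op p) fun x => 1 + ∑ i, normSq (g i x) := by
  have hm := D.kae.toMet
  have cl := aZCL n M D.H D.T Θ₂ hm
  refine DK.dAVG n M _ _ _ κ _ hm (fun i x => normSq_nonneg _) fun i => ?_
  obtain ⟨j, hj⟩ := DOM.bd (cl.lc _ hp) (hg i)
  have e := DOM.op (cl.lc _ hp).nn j
  have t := paz5 (g := g i) hm f₂ (DOM.pw cl hp (j + 1)) (by rw [e]; exact hj)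
  rw [e] at t
  exact dmz5 hA r0 s0 hΘ hΨ t

end Pool.Agent.Lib.KN
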