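import Pool.Agent.Lib.KN.Defs
import Pool.Agent.Lib.KF.Neg2

/-! Project kn: the poles along the contracted hypersurfaces are bounded. -/

open scoped Classical Topology ContDiff ComplexOrder Matrix
open Set Filter Complex

noncomputable section

namespace Pool.Agent.Lib.KN

open Pool.Agent.Lib.SV (E)
open Pool.Agent.Lib.HS32 Pool.Agent.Lib.HS32.Mf Pool.Agent.Lib.KS Pool.Agent.Lib.KS.NEG
open Pool.Agent.Lib.KF
open Pool.Agent.Lib.RAA (kp)
open Pool.Agent.Lib.KX (Lz Ab)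
open Pool.Agent.Lib.K3S (Dk)
open Pool.Agent.Lib.K3S.TW (sm2 wmu prd)

variable {n N B r : ℕ} {M : Mf n} {I : Type} [Fintype I] {D : Dk M I}

theorem one5 [M.Cpt] (h : AmpM D) (β : Fin N → Fin r) (B : ℕ) (C₁ : ℝ) : ∃ w : I → ℕ,
    ∀ (A : M.Co) (ψ : M.Fam ℝ), M.WtC A ψ →
      (M.All fun e z => ∀ v, D.β e z *ᵥ v = 0 → nl v (M.hw ψ e z) ≤ C₁ * nl v (D.H e z)) →
      ∀ p s, Tp D β B A p s →
      ¬p ≤ w → ∃ j, p j ≠ 0 ∧ M.All fun e z => D.f j e z = 0 → s e z = 0 := by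
  obtain ⟨w, g, C₀, w0, gs, amp⟩ := h.amp
  have hH := D.kae.toMet
  obtain ⟨C, -, hC⟩ := (DM.dCRV n N B).2 M D.H hH
  obtain ⟨W, χ, p1, -, p3⟩ := prd D.wt w Finset.univ
  obtain ⟨q1, q2⟩ := p1.addF gs
  have hP : M.Met (C₀ • D.β - M.hw _) := ⟨(D.cβ.toForm.smul C₀).sub q1.clo.toForm,
    fun e he z hz => by
      simpa only [Pi.sub_apply, Pi.smul_apply, q2 e he z hz, p3 e he z hz] using amp e he z hz⟩
  choose c c0 _ hc using fun k => (mBD n M _ hP).1 _ (D.wt k).clo.toForm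
  obtain ⟨c', -, hc', -⟩ := (mBD n M _ hP).1 _ (hH.toForm.smul (C + C₁))
  obtain ⟨b, hb⟩ := exists_nat_ge (∑ k, w k * c k + c')
  refine ⟨fun k => b * w k, fun A ψ hA hψ p s hs hp => ?_⟩
  have ex : ∃ l, ∀ k, p k ≤ l * w k := ⟨∑ k, p k, fun k => (Finset.single_le_sum
    (fun _ _ => Nat.zero_le _) (Finset.mem_univ k)).trans (Nat.le_mul_of_pos_right _ (w0 k))⟩
  have le := Nat.find_spec ex
  have bl : b < Nat.find ex := Nat.lt_of_not_le fun t =>
    hp fun k => (le k).trans (Nat.mul_le_mul_right _ t)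
  obtain ⟨j, hj⟩ := not_forall.1 (Nat.find_min ex (Nat.sub_lt (Nat.zero_lt_of_lt bl) one_pos))
  generalize Nat.find ex = l at le bl hj
  obtain ⟨l, rfl⟩ := Nat.exists_eq_add_one_of_ne_zero (Nat.zero_lt_of_lt bl).ne'
  rw [Nat.add_sub_cancel, not_le] at hj
  let q : I → ℕ := fun k => if k = j then 0 else (l + 1) * w k - p k
  obtain ⟨R, ρ, r1, r2, r3⟩ := prd D.wt (p + q) Finset.univ
  obtain ⟨a1, a2⟩ := (wmu hA r1).addF (gs.const_mul ((l : ℝ) + 1))
  have v := vanT hH hC (D.hol j) (D.wt j) ((hs.mul q).lz fun e e' x => by rw [← r2]; rfl) a1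
    fun x hx => by
      obtain ⟨e, he, hxe, d⟩ := D.deg j x
      have hz := e.map_source hxe
      obtain ⟨d1, v, v0, v1, v2⟩ := d ((not_iff_not.1 ((D.hol j).ne_iff he hxe)).1 hx)
      refine ⟨e, he, hxe, d1, v, v1, ?_⟩
      have k0 : 0 < nl v _ := (Complex.pos_iff.1 ((hP.pos e he _ hz).dotProduct_mulVec_pos v0)).1
      have k1 : 0 ≤ nl v _ :=
        (Complex.nonneg_iff.1 ((hc j e he _ hz).dotProduct_mulVec_nonneg v)).1
      have k2 : 0 ≤ nl v _ :=
        (Complex.nonneg_iff.1 ((hc' e he _ hz).dotProduct_mulVec_nonneg v)).1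
      have k3 := hψ e he _ hz v v2
      have k4 : ∀ k, ((p k + q k : ℕ) : ℝ) =
          (l + 1) * w k - if k = j then ((l + 1) * w j - p j : ℝ) else 0 := fun k => by
        by_cases t : k = j
        · simp [q, t]
        · simp [q, t, Nat.add_sub_cancel' (le k)]
      have k5 : (w j : ℝ) * c j ≤ ∑ k, w k * c k := Finset.single_le_sum
        (f := fun k => (w k : ℝ) * c k) (fun k _ => mul_nonneg (Nat.cast_nonneg _) (c0 k).le)
        (Finset.mem_univ j)
      have k6 : (l : ℝ) * w j < p j := by exact_mod_cast hj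
      have k7 : (p j : ℝ) ≤ (l + 1) * w j := by exact_mod_cast le j
      have k8 : (b : ℝ) ≤ l := by exact_mod_cast Nat.le_of_lt_succ bl
      rw [a2 e he _ hz, hw_add (hA.sm e he _ hz) (r1.sm e he _ hz), r3 e he _ hz,
        ((mLAP n M g g gs gs).1 _ e he _ hz).2.2.2.1]
      simp only [Pi.add_apply, Pi.sub_apply, Pi.neg_apply, Pi.smul_apply, q2 e he _ hz,
        p3 e he _ hz, map_add, map_sub, map_neg, map_smul, map_sum, nl0 v2, smul_eq_mul, k4,
        sub_mul, Finset.sum_sub_distrib, ite_mul, zero_mul, Finset.sum_ite_eq', Finset.mem_univ,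
        if_true, mul_assoc, ← Finset.mul_sum, mul_zero, zero_sub] at k0 k1 k2 ⊢
      generalize ∑ k, (w k : ℝ) * nl v (M.hw (D.φ k) e (e x)) = y at *
      have k9 := mul_nonneg (sub_nonneg.2 k7) k1
      have k10 := mul_nonneg (mul_nonneg (c0 j).le k0.le) (sub_nonneg.2 k6.le)
      have k11 := mul_nonneg k0.le (sub_nonneg.2 (k5.trans (le_sub_iff_add_le.2 (hb.trans k8))))
      nlinarith
  obtain ⟨R', ρ', t1, t2, -⟩ := prd D.wt p Finset.univ
  obtain ⟨u, u1, u2⟩ := nrm hH (wmu hA t1) (hs.lz fun e e' x => by rw [← t2]; rfl)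
  refine ⟨j, (Nat.zero_lt_of_lt hj).ne', fun e he z hz h0 => (u2 e he z hz).2.2.2.1
    ((isClosed_eq u1.continuous continuous_const).closure_subset
    (mem_closure_iff_frequently.2 ((dens (fun k => cl (D.wt k) (D.hol k).toSecC)
      (Finset.univ.erase j) (fun k hk => snc h (Finset.ne_of_mem_erase hk).symm) _
      ((zi (D.hol j).toSecC e he z hz).2 h0)).mono fun y hy => ?_)))⟩
  obtain ⟨c1, c2⟩ := (mTR n M).1 y
  have hz' := (M.ch y).map_source c2
  have t := (u2 _ c1 _ hz').2.2.2.2 ((smul_eq_zero.1 (v _ c1 _ hz' hy.1)).resolve_left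
    (Finset.prod_ne_zero_iff.2 fun k _ => ?_))
  · rwa [(M.ch y).left_inv c2] at t
  · by_cases t : k = j
    · simp [q, t]
    · exact pow_ne_zero _ (hy.2 k (Finset.mem_erase.2 ⟨t, Finset.mem_univ k⟩))

theorem ind5 [M.Cpt] (h : AmpM D) (β : Fin N → Fin r) (B : ℕ) (C₁ : ℝ) : ∃ w : I → ℕ,
    ∀ (A : M.Co) (ψ : M.Fam ℝ), M.WtC A ψ →
      (M.All fun e z => ∀ v, D.β e z *ᵥ v = 0 → nl v (M.hw ψ e z) ≤ C₁ * nl v (D.H e z)) →
      ∀ p s, Tp D β B A p s →
      ∃ p' q s', p = p' + q ∧ p' ≤ w ∧ Tp D β B A p' s' ∧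
        M.All fun e z => s e z = (∏ k, D.f k e z ^ q k) • s' e z := by
  obtain ⟨w, hw⟩ := one5 h β B C₁
  refine ⟨w, fun A ψ hA hψ p => ?_⟩
  induction hm : ∑ k, p k using Nat.strong_induction_on generalizing p with | _ m ih => ?_
  intro s hs
  by_cases hp : p ≤ w
  · exact ⟨p, 0, s, (add_zero p).symm, hp, hs, fun e _ z _ => by simp⟩
  obtain ⟨j, pj, hv⟩ := hw A ψ hA hψ p s hs hp
  obtain ⟨q, rfl⟩ : ∃ q, p = q + Pi.single j 1 := ⟨p - Pi.single j 1, (tsub_add_cancel_of_le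
    (update_le_iff.2 ⟨Nat.one_le_iff_ne_zero.2 pj, fun _ _ => Nat.zero_le _⟩)).symm⟩
  have t : ∀ (q : I → ℕ) (g : I → ℂ),
      ∏ k, g k ^ (q + Pi.single j 1 : I → ℕ) k = (∏ k, g k ^ q k) * g j := fun q g => by
    simp only [Pi.add_apply, pow_add, Finset.prod_mul_distrib]
    simp [Pi.single_apply]
  obtain ⟨R, ρ, r1, r2, -⟩ := prd D.wt q Finset.univ
  obtain ⟨s1, a1, a2⟩ := divT (Λ := sm2 A R) (D.hol j) (rg D j)
    (hs.lz fun e e' x => by simp only [sm2, r2, t, mul_assoc]) hv hs.alt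
  obtain ⟨p', q', s', rfl, b1, b2, b3⟩ := ih _ (by simp [← hm, Finset.sum_add_distrib]) q rfl s1
    ⟨fun e he z hz => a1.hol e he z hz trivial, fun e he e' he' x hx hx' => by
      simpa only [sm2, r2] using a1.law e he e' he' x hx hx' trivial,
      fun e he z hz => (a2 e he z hz).2⟩
  refine ⟨p', q' + Pi.single j 1, s', add_assoc _ _ _, b1, b2, fun e he z hz => ?_⟩
  beta_reduce
  rw [t, (a2 e he z hz).1, b3 e he z hz, smul_smul, mul_comm]

/-- Tensors with values in a power of the canonical bundle have values in a power of `L`, up to a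
bounded power of the canonical bundle. -/
theorem neg5 [M.Cpt] (h : AmpM D) (β : Fin N → Fin r) (B : ℕ) {Λ : M.Co} {χ : M.Fam ℝ}
    (hχ : M.WtC Λ χ) : ∃ b : ℕ, ∀ (a : ℕ) (L : M.Co)
    (s : M.Fam ((Fin N → Fin n) → ℂ)), (M.Ov fun e e' x =>
      L.c e e' x * ∏ k, (D.L k).c e e' x ^ D.a k = (M.J e e' x).det ^ D.c) →
    Lz univ N (B + (a + b) * D.c) Λ s → (M.All fun e z => Ab β (s e z)) →
    ∃ t, Lz univ N (B + b * D.c) (sm2 (L.pw a) Λ) t ∧ M.All fun e z => Ab β (t e z) ∧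
      s e z = (∏ k, D.f k e z ^ (a * D.a k)) • t e z := by
  obtain ⟨C₁, -, hC₁, -⟩ := (mBD n M _ D.kae.toMet).1 _ hχ.clo.toForm
  obtain ⟨w, hw⟩ := ind5 h β B C₁
  refine ⟨∑ k, w k, fun a L s hL hs hβ => ?_⟩
  generalize hb : ∑ k, w k = b at hs ⊢
  obtain ⟨A, ψ, hA, c, hψ⟩ := wtA D (a + b)
  have ne : ∀ m, M.Ov fun e e' x => ∏ k, (D.L k).c e e' x ^ (m * D.a k) ≠ 0 :=
    fun m e he e' he' x hx hx' => Finset.prod_ne_zero_iff.2 fun k _ =>
      pow_ne_zero _ ((D.L k).ne e he e' he' x hx hx')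
  obtain ⟨p, q, s', a1, a2, a3, a4⟩ := hw _ _ (wmu hA hχ) (fun e he z hz v hv => by
      have k : 0 ≤ nl v _ :=
        (Complex.nonneg_iff.1 ((hC₁ e he z hz).dotProduct_mulVec_nonneg v)).1
      rw [hw_add (hA.sm e he z hz) (hχ.sm e he z hz), map_add]
      simp only [Pi.smul_apply, map_sub, map_smul, smul_eq_mul] at k
      linarith [hψ e he z hz v hv]) (fun k => (a + b) * D.a k) s
    ⟨fun e he z hz => hs.hol e he z hz trivial, fun e he e' he' x hx hx' => by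
      simp only [sm2]
      rw [c, mul_right_comm _ (Λ.c e e' x), inv_mul_cancel_right₀ (ne _ e he e' he' x hx hx'),
        ← mul_assoc, ← pow_add]
      exact hs.law e he e' he' x hx hx' trivial, hβ⟩
  have a5 : ∀ k, (a + b) * D.a k = p k + q k := congrFun a1
  have le : ∀ k, p k ≤ b * D.a k := fun k => by
    rcases Nat.eq_zero_or_pos (D.a k) with t | t
    · have := a5 k
      rw [t] at this ⊢
      omega
    · exact ((a2 k).trans (hb ▸ Finset.single_le_sum (fun _ _ => Nat.zero_le _)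
        (Finset.mem_univ k))).trans (Nat.le_mul_of_pos_right _ t)
  have m := a3.mul fun k => b * D.a k - p k
  refine ⟨_, ⟨fun e he z hz _ => m.hol e he z hz, fun e he e' he' x hx hx' _ =>
    Eq.trans (congrArg (· • _) ?_) (m.law e he e' he' x hx hx')⟩,
    fun e he z hz => ⟨m.alt e he z hz, (a4 e he z hz).trans ?_⟩⟩
  · have t := congrArg (· ^ a) (hL e he e' he' x hx hx')
    have n1 := ne a e he e' he' x hx hx'
    have n2 := ne b e he e' he' x hx hx'
    simp only [mul_pow, ← Finset.prod_pow, ← pow_mul, mul_comm _ a] at t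
    simp only [c, Co.pw, sm2, Pi.add_apply, Nat.add_sub_cancel' (le _), add_mul, pow_add,
      Finset.prod_mul_distrib, ← t] at n1 n2 ⊢
    field_simp
  · rw [smul_smul, ← Finset.prod_mul_distrib]
    refine congrArg (· • _) (Finset.prod_congr rfl fun k _ => ?_)
    rw [← pow_add]
    refine congrArg _ ?_
    have := a5 k
    have := le k
    rw [add_mul] at *
    omega

theorem mv5 [M.Cpt] (h : AmpM D) {L Λ : M.Co} {χ : M.Fam ℝ} (hχ : M.WtC Λ χ) (hL : M.Ov fun e e' x =>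
      L.c e e' x * ∏ k, (D.L k).c e e' x ^ D.a k = (M.J e e' x).det ^ D.c) {q d C : ℕ}
    {β : Fin N → Fin q} (hS : {a : ℕ | ∃ (k : ℕ) (V : Fin k → M.Fam ((Fin N → Fin n) → ℂ)),
      (a + 1) ^ d ≤ C * k ∧ Ind V ∧ ∀ s, Lz univ N (q + a) Λ (V s) ∧
        M.All fun e z => Ab β (V s e z)}.Infinite) : Mv5 L Λ d := by
  obtain ⟨r, hr⟩ : ∃ r, (_ ∩ {a | a % D.c = r}).Infinite := by_contra fun c =>
    hS (((finite_Iio D.c).biUnion fun r _ => not_infinite.1 fun t => c ⟨r, t⟩).subset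
      fun a ha => mem_biUnion (Nat.mod_lt a D.c0) ⟨ha, rfl⟩)
  obtain ⟨b, hb⟩ := neg5 h β (q + r) hχ
  refine ⟨N, q + r + b * D.c, C, fun p => (β p).castLE (by omega),
    Infinite.of_image (fun a => r + (a + b) * D.c)
      ((hr.sdiff (finite_lt_nat ((b + 1) * D.c))).mono ?_)⟩
  rintro a ⟨⟨⟨k, V, v1, v2, v3⟩, a1⟩, a2⟩
  obtain ⟨a', a3⟩ := Nat.exists_eq_add_of_le' ((Nat.le_succ b).trans
    ((Nat.le_div_iff_mul_le D.c0).2 (Nat.le_of_not_lt a2)))
  obtain rfl : a = r + (a' + b) * D.c := by rw [← a3, ← a1, Nat.mod_add_div']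
  choose t t1 t2 using fun s => hb a' L (V s) hL (add_assoc q r _ ▸ (v3 s).1) (v3 s).2
  refine ⟨a', ⟨k, t, le_trans (Nat.pow_le_pow_left (by nlinarith [D.c0]) d) v1,
    fun c hc => v2 c fun e he z hz => ?_, fun s => ⟨t1 s, fun e he z hz K p p' h1 h2 =>
      (t2 s e he z hz).1 K p p' h1 (Fin.castLE_injective _ h2)⟩⟩, rfl⟩
  simp only [fun s => (t2 s e he z hz).2, smul_comm (c _), ← Finset.smul_sum]
  exact smul_eq_zero_of_right _ (hc e he z hz)

end Pool.Agent.Lib.KN
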