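import Pool.Agent.Lib.KN.Defs
import Pool.Agent.Lib.KX.All

/-! Project kn: the first base. -/

open scoped Classical Topology ContDiff ComplexOrder Matrix ENNReal
open Set MeasureTheory Complex Metric Filter

noncomputable section

namespace Pool.Agent.Lib.KN

open Pool.Agent.Lib.SV (E nsq)
open Pool.Agent.Lib.HS32 Pool.Agent.Lib.KX
open Pool.Agent.Lib.KH (HoK OnK)
open Pool.Agent.Lib.KT (Bd)
open Pool.Agent.Lib.K3S.TW (sm2 wmu)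

variable {n N B : ℕ} {M : Mf n} {L Λ : M.Co} {H Θ₁ Θ₂ : M.Fam (Mat n)} {φ ψ : M.Fam ℝ}

theorem quo5 {a b : ℕ} {s t : M.Fam ((Fin N → Fin n) → ℂ)}
    (hs : Lz univ N B (sm2 (L.pw a) Λ) s) (ht : Lz univ N B (sm2 (L.pw (a + b)) Λ) t)
    (h : M.All fun e z => ∀ I I', s e z I * t e z I' = s e z I' * t e z I) :
    ∃ χ, PSI.Qu L b s t χ := by
  obtain ⟨χ, h1, h2⟩ := xQUZ n M N B _ _ s t hs ht h
  refine ⟨χ, h1, fun e he e' he' x hx hx' k => ?_⟩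
  have := h2 e he e' he' x hx hx' k
  change _ * (L.c e e' x ^ a * Λ.c e e' x) = _ * (L.c e e' x ^ (a + b) * Λ.c e e' x) at this
  refine mul_right_cancel₀ (mul_ne_zero (pow_ne_zero a (L.ne e he e' he' x hx hx'))
    (Λ.ne e he e' he' x hx hx')) (this.trans ?_)
  ring

theorem nrm5 [M.Cpt] (hH : M.Met H) (hφ : M.WtC L φ) (hψ : M.WtC Λ ψ) {a b : ℕ}
    {s t : M.Fam ((Fin N → Fin n) → ℂ)} {χ : M.Fam ℂ} (q : PSI.Qu L b s t χ) {x : M.X}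
    (hx : M.ev s x ≠ 0) : nw H B (((a + b : ℕ) : ℝ) • φ + ψ) t x =
      M.nrC ((b : ℝ) • φ) χ x * nw H B ((a : ℝ) • φ + ψ) s x := by
  rw [(xZKT n M H N B _ _ hH (wmu (hφ.pw (a + b)).1 hψ)).2.2.2.2.1 s t (M.ev χ x) x
    (q.hol _ (Mf.ch_mem x) _ (Mf.ch_tgt x) hx).2]
  simp only [nw, Mf.nrC, Mf.ev, Pi.add_apply, Pi.smul_apply, smul_eq_mul, Nat.cast_add, add_mul,
    neg_add, Real.exp_add]
  ring

theorem psi5 [M.Cpt] {c : ℝ} {d : ℕ} {u : M.X → ℝ} (hH : M.Met H) (hφ : M.WtC L φ)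
    (hψ : M.WtC Λ ψ) (hc : 0 ≤ c) (cur : M.All fun e z => M.hw φ e z = c • Θ₁ e z)
    (h : Pq5 L Λ d fun _ B a s => ∃ C, ∀ x, nw H B ((a : ℝ) • φ + ψ) s x ≤ C * u x) :
    ∃ m, 0 < m ∧ ∃ τ p, Bz (Kz H Θ₁ (M.hw ψ)) (L.pw m) ((m : ℝ) • φ) τ p 1 d ∧
      ∃ C, ∀ x, p x ≤ C * u x := by
  obtain ⟨N, B, C, β, S, h1, h2, hA⟩ := h
  set A := {a : ℕ | ∃ (k : ℕ) (V : Fin k → M.Fam ((Fin N → Fin n) → ℂ)), (a + 1) ^ d ≤ C * k ∧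
    KS.Ind V ∧ ∀ s, V s ∈ S a} with eA
  have zk := fun a : ℕ => xZKT n M H N B _ _ hH (wmu (hφ.pw a).1 hψ)
  have bd : ∀ a, ∀ s ∈ S a, (∃ e ∈ M.C, ∃ z ∈ e.target, s e z ≠ 0) →
      nw H B ((a : ℝ) • φ + ψ) s ∈ Kz H Θ₁ (M.hw ψ) ∧ (∀ x, 0 ≤ nw H B ((a : ℝ) • φ + ψ) s x) ∧
      (∃ D > (0 : ℝ), ∀ x, nw H B ((a : ℝ) • φ + ψ) s x ≤ D) ∧
      M.All fun e z => 0 < nw H B ((a : ℝ) • φ + ψ) s (e.symm z) ↔ s e z ≠ 0 := fun a s hs nz => by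
    obtain ⟨-, -, k1, k2⟩ := (zk a).2.2.2.2.2 s (h1 a s hs).1
    refine ⟨⟨⟨N, B, β, _, _, s, wmu (hφ.pw a).1 hψ, ⟨a * c, 1, by positivity, zero_le_one,
      fun e he z hz => ?_⟩, (h1 a s hs).1, (h1 a s hs).2.1, nz⟩, rfl⟩, (zk a).2.2.2.1 s,
      (xKIT n M H _ hH (k2 nz)).2.2.2.1, k1⟩
    beta_reduce
    rw [Mf.hw_add ((hφ.pw a).1.sm e he z hz) (hψ.sm e he z hz), (hφ.pw a).2 e he z hz,
      cur e he z hz, smul_smul, one_smul]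
  have ex : ∀ a ∈ A, ∃ s ∈ S a, ∃ e ∈ M.C, ∃ z ∈ e.target, s e z ≠ 0 := by
    rintro a ⟨k, V, v1, v2, v3⟩
    have k0 : 0 < k := Nat.pos_of_ne_zero fun h => by
      subst h
      exact absurd v1 (not_le.2 (by positivity))
    exact ⟨_, v3 ⟨0, k0⟩, PSI.nz_of v2 _⟩
  obtain ⟨a₀, ha₀⟩ := hA.nonempty
  obtain ⟨a₁, ha₁, lt⟩ := hA.exists_gt a₀
  obtain ⟨m, rfl⟩ := Nat.exists_eq_add_of_le lt.le
  have m0 : 0 < m := by omega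
  obtain ⟨a₂, ha₂, hJ⟩ := PSI.cls hA m0
  obtain ⟨s₀, t₀, z₀⟩ := ex _ ha₀
  obtain ⟨s₁, t₁, z₁⟩ := ex _ ha₁
  obtain ⟨s₂, t₂, z₂⟩ := ex _ ha₂
  obtain ⟨k₀, n₀, ⟨D₀, d₀, b₀⟩, c₀⟩ := bd _ _ t₀ z₀
  obtain ⟨k₁, n₁, ⟨D₁, d₁, b₁⟩, c₁⟩ := bd _ _ t₁ z₁
  obtain ⟨k₂, n₂, ⟨D₂, d₂, b₂⟩, c₂⟩ := bd _ _ t₂ z₂
  obtain ⟨τ, qτ⟩ := quo5 (h1 _ _ t₀).1 (h1 _ _ t₁).1 (h2 _ _ _ t₀ _ t₁)
  have nτ := fun x hx => nrm5 (B := B) (a := a₀) hH hφ hψ qτ (x := x) hx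
  obtain ⟨Cu, hu⟩ := (h1 _ _ t₀).2.2
  generalize nw H B ((a₀ : ℝ) • φ + ψ) s₀ = p₀ at *
  generalize nw H B (((a₀ + m : ℕ) : ℝ) • φ + ψ) s₁ = p₁ at *
  obtain ⟨p₂, e₂⟩ : ∃ p₂, p₂ = nw H B ((a₂ : ℝ) • φ + ψ) s₂ := ⟨_, rfl⟩
  rw [← e₂] at k₂ n₂ b₂ c₂
  obtain ⟨-, mo, -⟩ := aZMO n M H Θ₁ (M.hw ψ) hH
  obtain ⟨ε, eε⟩ : ∃ ε : ℝ, ε = (D₀ * D₁ * D₂)⁻¹ := ⟨_, rfl⟩
  have ε0 : 0 < ε := by rw [eε]; positivity
  have mem := (mo _ ((mo _ ((mo _ k₀).2.1 _ k₁)).2.1 _ k₂)).2.2 ε ε0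
  obtain ⟨p, ep⟩ : ∃ p : M.X → ℝ, p = fun x => ε * (p₀ x * p₁ x * p₂ x) := ⟨_, rfl⟩
  rw [← ep] at mem
  obtain ⟨op, den, -⟩ := xKIT n M H p hH (mo p mem).1
  have ps : ∀ x ∈ Op p, 0 < p₀ x ∧ 0 < p₁ x ∧ 0 < p₂ x := fun x hx => by
    have h : p₀ x * p₁ x * p₂ x ≠ 0 := fun h => by
      have : 0 < p x := hx
      rw [ep] at this
      simp only [h, mul_zero, lt_self_iff_false] at this
    exact ⟨(n₀ x).lt_of_ne' (left_ne_zero_of_mul (left_ne_zero_of_mul h)),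
      (n₁ x).lt_of_ne' (right_ne_zero_of_mul (left_ne_zero_of_mul h)),
      (n₂ x).lt_of_ne' (right_ne_zero_of_mul h)⟩
  have o₀ : OnK M (Op p) fun e z => s₀ e z ≠ 0 := fun e he z hz k => (c₀ e he z hz).1 (ps _ k).1
  have o₂ : OnK M (Op p) fun e z => s₂ e z ≠ 0 := fun e he z hz k => (c₂ e he z hz).1 (ps _ k).2.2
  have ms : Ms (Op p) (L.pw m) τ := ⟨fun e he z hz k => ⟨(qτ.hol e he z hz (o₀ e he z hz k)).1,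
    fun h => (c₁ e he z hz).1 (ps _ k).2.1
      ((qτ.hol e he z hz (o₀ e he z hz k)).2.trans (by rw [h, zero_smul]))⟩,
    fun e he e' he' x hx hx' k => qτ.law e he e' he' x hx hx'
      (o₀ e he _ (e.map_source hx) (by rwa [e.left_inv hx]))⟩
  have T0 := Mf.nrC_nonneg ((m : ℝ) • φ) τ
  have eT : ∀ x ∈ Op p, p₁ x = M.nrC ((m : ℝ) • φ) τ x * p₀ x := fun x hx =>
    nτ x (KT.PSI.at_ch o₀ hx)
  have m3 : ∀ {u v w U V W : ℝ}, 0 ≤ v → 0 ≤ w → 0 ≤ U → 0 ≤ V → u ≤ U → v ≤ V → w ≤ W →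
      ε * (u * v * w) ≤ ε * (U * V * W) := fun a1 a2 a3 a4 a5 a6 a7 =>
    mul_le_mul_of_nonneg_left (mul_le_mul (mul_le_mul a5 a6 a1 a3) a7 a2 (mul_nonneg a3 a4)) ε0.le
  refine ⟨m, m0, τ, p, ⟨(hφ.pw m).1, mem, fun x => ?_, ms, ⟨ε * (D₀ * D₀ * D₂), fun y hy => ?_⟩,
    ⟨ε * (D₁ * D₁ * D₂), fun y hy => ?_⟩, C, hJ.mono ?_⟩, ε * (Cu * D₁ * D₂), fun x => ?_⟩
  rotate_right
  · rw [ep]
    exact (m3 (n₁ x) (n₂ x) ((n₀ x).trans (hu x)) d₁.le (hu x) (b₁ x) (b₂ x)).trans_eq (by ring)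
  · rw [ep]
    refine (m3 (n₁ x) (n₂ x) d₀.le d₁.le (b₀ x) (b₁ x) (b₂ x)).trans_eq ?_
    rw [eε]
    exact inv_mul_cancel₀ (by positivity)
  · refine le_of_eq_of_le ?_ (mul_le_mul_of_nonneg_right
      (m3 (n₀ y) (n₂ y) d₀.le d₀.le (b₀ y) (b₀ y) (b₂ y)) (T0 y))
    rw [ep]
    beta_reduce
    rw [eT y hy]
    ring
  · refine le_of_eq_of_le ?_ (m3 (n₁ y) (n₂ y) d₁.le d₁.le (b₁ y) (b₁ y) (b₂ y))
    have := eT y hy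
    rw [ep]
    beta_reduce
    linear_combination (-(ε * p₁ y * p₂ y)) * this
  · rintro j ⟨k, V, v1, v2, v3⟩
    have q := fun i => quo5 (h1 _ _ t₂).1 (h1 _ _ (v3 i)).1 (h2 _ _ _ t₂ _ (v3 i))
    choose χ q using q
    have lw : ∀ i, M.Ov fun e e' x => x ∈ Op p →
        χ i e' (e' x) = χ i e (e x) * L.c e e' x ^ (j * m) := fun i e he e' he' x hx hx' k =>
      (q i).law e he e' he' x hx hx' (o₂ e he _ (e.map_source hx) (by rwa [e.left_inv hx]))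
    refine ⟨k, fun i y => M.ev (χ i) y / M.ev τ y ^ j, le_trans (Nat.pow_le_pow_left ?_ d) v1,
      fun y hy => v2 y (PSI.zero_of den (fun i e he z hz => (h1 _ _ (v3 i)).1.hol e he z hz trivial)
        y fun e he z hz hk => ?_), fun i => ⟨PSI.quo_hol op
          (fun e he z hz hk => ((q i).hol e he z hz (o₂ e he z hz hk)).1) (lw i) ms, ?_⟩⟩
    · have := Nat.le_mul_of_pos_right j m0
      omega
    · have h := hy _ hk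
      simp only [fun i => PSI.quo_rep (lw i) ms e he z hz hk, ← mul_div_assoc, ← Finset.sum_div,
        div_eq_zero_iff, pow_ne_zero j (ms.hol e he z hz hk).2, or_false] at h
      simp only [fun i => ((q i).hol e he z hz (o₂ e he z hz hk)).2, smul_smul, ← Finset.sum_smul,
        h, zero_smul]
    · obtain ⟨-, n₃, ⟨D₃, d₃, b₃⟩, -⟩ := bd _ _ (v3 i) (PSI.nz_of v2 i)
      refine ⟨ε * (D₀ * D₁ * D₃), fun y hy => le_of_eq_of_le ?_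
        (m3 (n₁ y) (n₃ y) d₀.le d₁.le (b₀ y) (b₁ y) (b₃ y))⟩
      rw [nrm5 hH hφ hψ (q i) (KT.PSI.at_ch o₂ hy), ← e₂, ← mul_assoc,
        PSI.quo_nrm (KT.PSI.at_ch ms.hol hy).2, ep]
      ring

end Pool.Agent.Lib.KN
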