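import Pool.Agent.Lib.KF.SDefs

/-! Definitions used in the statement: a line bundle, tensors with values in it, its slope. -/

open scoped ContDiff Matrix Topology
open MeasureTheory Filter

noncomputable section

namespace Pool.Agent.Lib.KN

open Pool.Agent.Lib.SV Pool.Agent.Lib.HS Pool.Agent.Lib.HW Pool.Agent.Lib.KP Pool.Agent.Lib.ZK47

variable (n : ℕ) {X ι I : Type} [TopologicalSpace X] [ChartedSpace (E n) X] [Fintype I]
  (U : ι → Set X)

/-- The functions `v i j` are the transition functions of a holomorphic line bundle `N`. -/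
def Coc (v : ι → ι → X → ℂ) : Prop := ∀ i j, ∀ x ∈ U i ∩ U j,
  HolAt n 0 (v i j) x ∧ v i j x ≠ 0 ∧ ∀ k, x ∈ U k → v i k x = v i j x * v j k x

/-- Holomorphic covariant tensors of order `q` with values in `N + a K`: `α i y` is the value at
`y` in the preferred chart of `y` and the frame of `N` on `U i`, and zero outside `U i`. The set is
a subspace already. -/
def TensN (v : ι → ι → X → ℂ) (q a : ℕ) :
    Submodule ℂ (ι → X → MultilinearMap ℂ (fun _ : Fin q => E n) ℂ) :=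
  Submodule.span ℂ {α | ∀ i x, (x ∉ U i → α i x = 0) ∧ (x ∈ U i →
    (∀ j, x ∈ U j → α i x = v i j x • α j x) ∧ ∀ w : Fin q → E n, DifferentiableAt ℂ (fun z =>
      α i ((chartAt (E n) x).symm z) (fun l => jacM x z *ᵥ w l) * jacAt n X x z ^ a)
        (chartAt (E n) x x))}

variable {n}

/-- The weights `φ i` are smooth and `Θ` is the Levi form of `φ i + c log det G`. -/
def Curv (G : X → Mat n) (c : ℝ) (φ : ι → X → ℝ) (Θ : X → Mat n) : Prop := ∀ i, ∀ y ∈ U i,
  ContDiffAt ℝ ∞ (φ i ∘ (chartAt (E n) y).symm) (chartAt (E n) y y) ∧ (Θ y).IsHermitian ∧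
    ∀ w, levi (fun z => φ i ((chartAt (E n) y).symm z) + c * Real.log (inChart G y z).det.re)
      (chartAt (E n) y y) w = (star w ⬝ᵥ Θ y *ᵥ w).re

/-- With `Θ` a curvature form of `K + ∑ b k D k`, `Ψ` one of `N` and `α = Θ + s β + t G`:
`n N α ^ (n - 1) ≤ C α ^ n` for small `s > 0` and then small `t > 0`. -/
def Slope (G β : X → Mat n) (u : I → ι → ι → X → ℂ) (b : I → ℝ) (v : ι → ι → X → ℂ) : Prop :=
  ∃ (φ χ : ι → X → ℝ) (Θ Ψ : X → Mat n) (r : ℕ) (x : Fin r → X) (B : Fin r → Set (E n)) (C : ℝ),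
    Glue U u b (fun i y => φ i y) ∧ Curv U G 1 φ Θ ∧
    Glue U (fun _ : Unit => v) 1 (fun i y => χ i y) ∧ Curv U G 0 χ Ψ ∧ Cells x B ∧
    ∀ᶠ s in 𝓝[>] (0 : ℝ), ∀ᶠ t in 𝓝[>] (0 : ℝ), ∑ k, ∫ z in B k,
      ((inChart (Θ + s • β + t • G) (x k) z).adjugate * inChart Ψ (x k) z).trace.re ≤
        C * ∑ k, ∫ z in B k, (inChart (Θ + s • β + t • G) (x k) z).det.re

end Pool.Agent.Lib.KN
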