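import Pool.Agent.Lib.KN.SDefs
import Pool.Agent.Lib.KN.Avg5
import Pool.Agent.Lib.KS.B_NU
import Pool.Agent.Lib.KS.B_KEY
import Pool.Agent.Lib.K3S.B_MS

/-! Project kn: the slope in the two languages. -/

open scoped Classical Topology ContDiff ComplexOrder Matrix Manifold ENNReal NNReal
open Set MeasureTheory Complex Metric Filter

noncomputable section

namespace Pool.Agent.Lib.KN

open Pool.Agent.Lib.SV (E Cells)
open Pool.Agent.Lib.HS32 Pool.Agent.Lib.HS.BBR Pool.Agent.Lib.RB.R32 Pool.Agent.Lib.KP.T6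
open Pool.Agent.Lib.KS
open Pool.Agent.Lib.HS (inChart)
open Pool.Agent.Lib.GH (Hermitian)
open Pool.Agent.Lib.K3S (Dk)

theorem slo5 {n : ℕ} {X ι I : Type} [TopologicalSpace X] [ChartedSpace (E n) X]
    [IsManifold 𝓘(ℂ, E n) ω X] [CompactSpace X] [T2Space X] [ConnectedSpace X] [Fintype I]
    {G β : X → Mat n} {U : ι → Set X} {f : I → ι → X → ℂ} {u : I → ι → ι → X → ℂ} {c : ℕ}
    {a : I → ℕ} {h : Cv n U u} {i : OpenPartialHomeomorph X (E n) → ι} {D : Dk h.M I}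
    (o : Org h G β f c a i D) {v : ι → ι → X → ℂ} (hv : Coc n U v)
    (hS : Slope U G β u (fun k => -(a k / c)) v) : ∃ (Λ : h.M.Co) (ψ : h.M.Fam ℝ),
      h.M.WtC Λ ψ ∧ (∀ e e' x, Λ.c e e' x = v (i e') (i e) x) ∧ ∃ (C : ℝ) (g : X → ℝ), h.M.Sm g ∧
        ∀ᶠ s in 𝓝[>] (0 : ℝ), ∀ᶠ t in 𝓝[>] (0 : ℝ),
          ∫ x, (mx D.H (D.T + s • D.β + t • D.H + h.M.hs g) (h.M.hw ψ) x).re ∂h.M.mu D.H ≤
            C * ∫ x, h.M.dq D.H (D.T + s • D.β + t • D.H + h.M.hs g) x ∂h.M.mu D.H := by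
  obtain ⟨φ, χ, Θ, Ψ, r₀, x, B, C, gl, hs, gl', hs', ce, hb⟩ := hS
  simp only [Curv, one_mul, zero_mul, add_zero] at hs hs'
  have cpt : h.M.Cpt := ⟨‹_›, ‹_›, ‹_›⟩
  have cp0 : (mf n X).Cpt := ⟨‹_›, ‹_›, ‹_›⟩
  have hc : ∀ x : X, chartAt (E n) x ∈ (mf n X).C := HW.ch_mem
  obtain ⟨r, r1, r2, r3, r4⟩ : ∃ r : X → OpenPartialHomeomorph X (E n), (∀ x, r x ∈ h.M.C) ∧
      (∀ x, x ∈ (r x).source) ∧ (∀ x, (r x : X → E n) = chartAt (E n) x) ∧
      ∀ x, ((r x).symm : E n → X) = (chartAt (E n) x).symm := by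
    choose r r1 r2 r3 r4 using fun x : X =>
      restr (mf n X) (U := U) h.opn h.cov (hc x) (mem_chart_source (E n) x)
    exact ⟨r, r1, r2, r3, r4⟩
  have kH := D.kae
  have fr : ∀ y, D.H (r y) = inChart G y := fun y => by
    funext z
    rw [o.H]
    change (jm (chartAt (E n) ((r y).symm z) ∘ (r y).symm) z)ᴴ * G ((r y).symm z) *
      jm (chartAt (E n) ((r y).symm z) ∘ (r y).symm) z = _
    rw [r4]
    rfl
  have e1 : ∀ (G : X → Mat n) (y : X), fam G (r y) (r y y) = G y := fun G y => by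
    have h0 : jm (chartAt (E n) y ∘ (chartAt (E n) y).symm) (chartAt (E n) y y) = 1 :=
      (mTR n (mf n X)).2.2.1 _ (hc y) y (mem_chart_source (M := X) (E n) y)
    change (jm (chartAt (E n) ((r y).symm (r y y)) ∘ (r y).symm) (r y y))ᴴ *
      G ((r y).symm (r y y)) * jm (chartAt (E n) ((r y).symm (r y y)) ∘ (r y).symm) (r y y) = _
    rw [(r y).left_inv (r2 y), r3, r4, h0, Matrix.conjTranspose_one, Matrix.one_mul, Matrix.mul_one]
  have e0 : ∀ y : X, D.H (r y) (r y y) = G y := fun y => by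
    rw [o.H]
    exact e1 G y
  have e2 : ∀ y : X, D.β (r y) (r y y) = β y := fun y => by
    rw [o.β]
    exact e1 β y
  have hz : ∀ y, r y y ∈ (r y).target := fun y => (r y).map_source (r2 y)
  have hG : Hermitian G := ⟨fun y => e0 y ▸ kH.pos _ (r1 y) _ (hz y), fun y => by
    rw [← fr, ← r3]
    exact kH.sm _ (r1 y) _ (hz y)⟩
  have m0 := (fam_ok hG).1
  have em : h.M.mu D.H = (mf n X).mu (fam G) := BMU.uniq (mMU n h.M _ kH.toMet).1 fun e he => by
    rw [o.H]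
    exact (mMU n _ _ m0).1 e he.1
  obtain ⟨g, sg, hg⟩ := kKEY n X ι I U u h i D.L D.φ _ φ o.sub o.L D.wt gl
    fun j y hy => (hs j y hy).1
  have cT := K3S.MS.clo D
  have cg := (mHES n h.M).1 g sg
  have et : ∀ y : X, (D.T + h.M.hs g) (r y) (r y y) = Θ y := fun y => by
    obtain ⟨j, hj⟩ := h.cov y
    obtain ⟨s1, s2⟩ := hg _ (r1 y) j _ (hz y) (by rwa [(r y).left_inv (r2 y)])
    have sl := ((mCOF n _ _ (kH.sm _ (r1 y) _ (hz y))).2.2.2.2.2
      (Mf.AllOn.ev kH.pos (r1 y) (hz y))).2.1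
    refine NU.herm_eq ((cT.add cg).herm _ (r1 y) _ (hz y)) (hs j y hj).2.1 fun v => ?_
    have h1 := (hs j y hj).2.2 v
    rw [← fr, ← r3, ← r4] at h1
    refine Eq.trans (congrArg (nq · v) ?_) ((HW.levi_eq (s1.add sl) v).symm.trans h1)
    simp only [ofReal_add]
    refine Eq.trans ?_ (hess_add (cd_ofReal s1) (cd_ofReal sl)).symm
    refine Eq.trans ?_ (congrArg (· + _) s2.symm)
    simp only [K3S.Dk.T, o.a, o.c, Mf.ric, Pi.add_apply, Pi.sub_apply, Pi.neg_apply,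
      Finset.sum_apply, Pi.smul_apply, neg_smul, Finset.sum_neg_distrib, neg_neg]
    exact (sub_add_eq_add_sub _ _ _).trans ((sub_eq_neg_add _ _).trans
      ((congrArg _ (add_comm _ _)).trans (add_assoc _ _ _).symm))
  obtain ⟨Λ, l1, -⟩ := ZK47.Br.ex_co (f := 0) h.opn h.cov o.sub
    (fun _ _ _ => by simp [KP.HolAt]) (fun j k y hy => ⟨(hv j k y hy).1, (hv j k y hy).2.1, by simp⟩)
    fun j k l y h1 h2 h3 => (hv j k y ⟨h1, h2⟩).2.2 l h3
  obtain ⟨ψ, hψ⟩ := KP.st_WT n h.M Λ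
  obtain ⟨g', sg', hg'⟩ := kKEY n X ι Unit U (fun _ => v) ⟨h.opn, h.cov,
    fun _ j k y hy => ⟨(hv j k y hy).1, (hv j k y hy).2.1⟩,
    fun _ j k l y h1 h2 h3 => (hv j k y ⟨h1, h2⟩).2.2 l h3⟩ i (fun _ => Λ) (fun _ => ψ) _ χ o.sub
    (fun _ => l1) (fun _ => hψ) gl' fun j y hy => (hs' j y hy).1
  obtain ⟨w1, w2⟩ := hψ.addF sg'
  refine ⟨Λ, _, w1, l1, C, g, sg, hb.mono fun s h1 => h1.mono fun t h2 => ?_⟩
  have cΨ := w1.clo
  have eΨ : ∀ y : X, h.M.hw (ψ + fun e z => g' (e.symm z)) (r y) (r y y) = Ψ y := fun y => by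
    obtain ⟨j, hj⟩ := h.cov y
    obtain ⟨s1, s2⟩ := hg' _ (r1 y) j _ (hz y) (by rwa [(r y).left_inv (r2 y)])
    refine NU.herm_eq (cΨ.herm _ (r1 y) _ (hz y)) (hs' j y hj).2.1 fun w => ?_
    have h1 := (hs' j y hj).2.2 w
    rw [← r3, ← r4] at h1
    refine Eq.trans (congrArg (nq · w) ?_) ((HW.levi_eq s1 w).symm.trans h1)
    refine (w2 _ (r1 y) _ (hz y)).trans (Eq.trans ?_ s2.symm)
    simp
  generalize h.M.hw (ψ + fun e z => g' (e.symm z)) = P at cΨ eΨ ⊢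
  have c1 := ((cT.add (D.cβ.smul s)).add (kH.toClo.smul t)).add cg
  have a1 : ∀ y : X, (D.T + s • D.β + t • D.H + h.M.hs g) (r y) (r y y) =
      (Θ + s • β + t • G) y := fun y => by
    rw [add_right_comm, add_right_comm D.T]
    change (D.T + h.M.hs g) (r y) (r y y) + s • D.β (r y) (r y y) + t • D.H (r y) (r y y) = _
    rw [et, e0, e2]
    rfl
  generalize D.T + s • D.β + t • D.H + h.M.hs g = A at c1 a1 ⊢
  generalize Θ + s • β + t • G = A' at a1 h2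
  obtain ⟨-, -, i3, i4, -⟩ := (mINV n _ _ kH.toMet).1 _ c1.toTen
  have ce' := fun {F : X → ℝ} (hF : Continuous F) => NU.cells (mf n X) m0
    (fun k => chartAt (M := X) (E n) (x k)) B (fun k => hc _) ce.meas ce.sub ce.part hF
  rw [em]
  refine le_of_eq_of_le ((ce' (continuous_re.comp (mx_c kH.toMet c1.toTen cΨ.toTen))).trans
    (Finset.sum_congr rfl fun k _ => integral_congr_ae (ae_of_all _ fun z => ?_)))
    (h2.trans_eq (congrArg (C * ·) ((ce' i4.continuous).trans (Finset.sum_congr rfl fun k _ =>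
      integral_congr_ae (ae_of_all _ fun z => ?_))).symm))
  all_goals obtain ⟨y, hy⟩ : ∃ y : X, (chartAt (E n) (x k)).symm z = y := ⟨_, rfl⟩
  · have a2 : mx D.H A P y = ((A' y).adjugate * Ψ y).trace / (G y).det := by
      rw [← a1, ← eΨ, ← e0]
      exact (mx_inv kH.toMet c1.toTen cΨ.toTen).rep.at (r1 y) (r2 y)
    change (inChart G (x k) z).det.re * (mx D.H A P ((chartAt (E n) (x k)).symm z)).re = _
    simp only [inChart, BMU.det_chg, adj_chg, hy]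
    rw [a2, ← Mf.herm_det (hG.pos y).1, div_ofReal_re, ofReal_re, mul_assoc,
      mul_div_cancel₀ _ (Mf.pd_det_re (hG.pos y)).ne', Matrix.det_conjTranspose, star_def,
      ← normSq_eq_conj_mul_self, re_ofReal_mul]
  · have a3 : (A' y).IsHermitian := a1 y ▸ c1.herm _ (r1 y) _ (hz y)
    have a2 := ((i3.at (r1 y) (r2 y)).trans (congrArg₂ (fun S T : Mat n => (S.det / T.det).re)
      (a1 y) (e0 y))).trans (BINV.re_div (hG.pos y).1 a3)
    change (inChart G (x k) z).det.re * h.M.dq D.H _ ((chartAt (E n) (x k)).symm z) = _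
    simp only [inChart, BMU.det_chg, hy]
    rw [a2, mul_assoc, mul_div_cancel₀ _ (Mf.pd_det_re (hG.pos y)).ne']

end Pool.Agent.Lib.KN
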