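import Pool.Agent.Lib.KN.Cr5
import Pool.Agent.Lib.KN.Psi5
import Pool.Agent.Lib.KN.Dmz5
import Pool.Agent.Lib.KN.Avg5

/-! Project kn: the context of the trunk. -/

open scoped Classical Topology ContDiff ComplexOrder Matrix ENNReal
open Set MeasureTheory Complex Metric Filter

noncomputable section

namespace Pool.Agent.Lib.KN

open Pool.Agent.Lib.HS32 Pool.Agent.Lib.HS32.Mf Pool.Agent.Lib.KX
open Pool.Agent.Lib.K3S.TW (sm2 wmu)

variable {n : ℕ} {M : Mf n} [M.Cpt]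

/-- Multiplication by a section. -/
theorem mul5 {H : M.Fam (Mat n)} {L Λ P : M.Co} {φ ψ χ : M.Fam ℝ} {F : M.Fam ℂ} {d : ℕ}
    (hH : M.Met H) (hφ : M.WtC L φ) (hψ : M.WtC Λ ψ) (hχ : M.WtC P χ) (hF : M.HSecC P F)
    (lc : Lc (M.nrC χ F)) (h : Pq5 L Λ d fun _ _ _ _ => True) : Pq5 L (sm2 Λ P) d fun _ B a s =>
      ∃ C, ∀ x, nw H B ((a : ℝ) • φ + (ψ + χ)) s x ≤ C * M.nrC χ F x := by
  obtain ⟨N, B, C, β, S, h1, h2, h3⟩ := h
  refine ⟨N, B, C, β, fun a => {t | ∃ s ∈ S a, t = fun e z => F e z • s e z}, ?_, ?_, h3.mono ?_⟩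
  · rintro a _ ⟨s, hs, rfl⟩
    obtain ⟨k1, k2, -⟩ := h1 a s hs
    refine ⟨⟨fun e he z hz _ => ((hF.holN e he z hz).and (k1.hol e he z hz trivial)).mono
      fun y t => t.1.smul t.2, fun e he e' he' x hx hx' _ => ?_⟩,
      fun e he z hz J p p' a1 a2 => ?_, ?_⟩
    · have t1 := k1.law e he e' he' x hx hx' trivial
      have t2 := hF.cmp e he e' he' x hx hx'
      beta_reduce at t1 t2 ⊢
      rw [Matrix.mulVec_smul, ← t1, smul_smul, smul_smul, t2]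
      refine congrArg (· • _) ?_
      simp only [sm2]
      ring
    · simp only [Pi.smul_apply, k2 e he z hz J p p' a1 a2, smul_neg]
    · obtain ⟨y, hy⟩ := ((xZKT n M H N B _ _ hH (wmu (hφ.pw a).1 hψ)).2.2.2.2.2 s k1).1.exists_max
      refine ⟨_, fun x => le_of_eq_of_le ?_ (mul_le_mul_of_nonneg_right (hy x) (nrC_nonneg χ F x))⟩
      rw [(xZKT n M H N B _ _ hH (wmu (hφ.pw a).1 (wmu hψ hχ))).2.2.2.2.1 s _ (M.ev F x) x rfl]
      simp only [nw, Mf.nrC, Mf.ev, Pi.add_apply, neg_add, Real.exp_add]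
      ring
  · rintro a a' _ ⟨s, hs, rfl⟩ _ ⟨t, ht, rfl⟩ e he z hz I I'
    simp only [Pi.smul_apply, smul_eq_mul]
    linear_combination F e z * F e z * h2 a a' s hs t ht e he z hz I I'
  · rintro a ⟨k, V, v1, v2, v3⟩
    refine ⟨k, fun s e z => F e z • V s e z, v1, fun c hc => v2 c (PSI.zero_of
      (xKIT n M H _ hH lc).2.1 (fun i e he z hz => (h1 a _ (v3 i)).1.hol e he z hz trivial) c
      fun e he z hz k => ?_), fun s => ⟨_, v3 s, rfl⟩⟩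
    have t := (hF.ne_iff he (e.map_target hz)).1 (nrC_ne.1 (ne_of_gt k))
    have u := hc e he z hz
    rw [e.right_inv hz] at t
    simp only [smul_comm (c _), ← Finset.smul_sum] at u
    exact (smul_eq_zero.1 u).resolve_left t

/-- The context of the trunk from many tensors with a twist of bounded slope. -/
theorem tk5 (hA : HS.St_AUBIN) {ι : Type} [Fintype ι] (D : Pp M ι) {d : ℕ} {Λ : M.Co}
    {ψ : M.Fam ℝ} (hψ : M.WtC Λ ψ) (hS : Slp D.toDt (M.hw ψ)) (h : Mv5 D.L Λ d) (hN : Ng D) :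
    ∃ (X : KU.Tk M) (m : ℕ), 0 < m ∧ X.H = D.H ∧ X.Θ = D.T ∧ X.Λ = D.L.pw m ∧
      KU.Gro X.p X.T 1 1 d := by
  have hm := D.kae.toMet
  obtain ⟨r, h⟩ := cr5 h
  obtain ⟨P, χ, p1, -, p3, p4, p5, -⟩ := EXD.gen D fun i => (D.a i).toNat
  obtain ⟨x1, ls, x3, -⟩ := aEXD n M ι D
  have p6 : D.ex = _ := p4
  have w := wmu (hψ.pw r).1 p1
  have hΘ : M.All fun e z => M.hw ((r : ℝ) • ψ + χ) e z =
      (r : ℝ) • M.hw ψ e z + (D.c : ℝ) • D.P e z := fun e he z hz => by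
    beta_reduce
    rw [hw_add ((hψ.pw r).1.sm e he z hz) (p1.sm e he z hz), (hψ.pw r).2 e he z hz, p5 e he z hz]
    simp only [EXD.cast_a, Pp.P, Finset.sum_apply, Pi.smul_apply, Finset.smul_sum, smul_smul]
  have cl := aZCL n M D.H D.T (M.hw ((r : ℝ) • ψ + χ)) hm
  obtain ⟨m, m0, τ, p₁, b₁, C₁, hC₁⟩ := psi5 hm D.wL w (Nat.cast_nonneg _) D.cur
    (mul5 hm D.wL (hψ.pw r).1 p1 p3 (p6 ▸ (aZCL n M D.H D.T D.P hm).lc _ x1) h)
  rw [← p6] at hC₁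
  obtain ⟨k, z, θ, μ, Δ, g⟩ := aALG n M _ _ cl
  obtain ⟨p, p₀, f1, f2, f3, C₂, f4⟩ := aFRA n k M _ _ z θ μ Δ _ cl g b₁.mem
  have b := aREF n M _ _ _ _ τ p₁ p 1 d cl b₁ f2 f3 ⟨C₂, f4⟩
  have lp := cl.lc _ f2
  have hC : ∀ x, p x ≤ |C₂| * C₁ * D.ex x := fun x => (f4 x).trans ((mul_le_mul (le_abs_self _)
    (hC₁ x) ((cl.lc _ b₁.mem).nn x) (abs_nonneg _)).trans_eq (mul_assoc _ _ _).symm)
  obtain ⟨C, fr⟩ := aFRM n k M _ _ _ _ τ 1 d p p₀ _ z θ μ Δ D.pos D.kae cl b f1 ls x3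
  obtain ⟨ε, a, ev⟩ := xENV (ZE.ze0 hA) n M ι D.toDt
  have ad := aADJ n M ι D m τ p ε a m0 lp b.ms ⟨_, hC⟩ ev
  obtain ⟨a', z1, z2, z3⟩ := ZE.ze0 hA n M ι D.toDt
  obtain ⟨op, -, -, -, mul, -⟩ := xKIT n M _ _ hm lp
  have lρ := mul _ ls
  have eq : Op (fun x => p x * D.s x) = RBR.O0 p D.s := Set.ext fun x =>
    ⟨fun h => ⟨(lp.nn x).lt_of_ne' (left_ne_zero_of_mul (ne_of_gt h)), right_ne_zero_of_mul (ne_of_gt h)⟩,
      fun h => mul_pos h.1 ((ls.nn x).lt_of_ne' h.2)⟩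
  have sb : Op (fun x => p x * D.s x) ⊆ Op p := fun x h => (eq.subset h).1
  refine ⟨⟨k, D.H, p, D.s, z, θ, μ, Δ, C, m * D.c, D.w, ε, a, D.T, D.L.pw m, (m : ℝ) • D.φ, τ, a',
    fr, ad, D.cT, b.wt, fun e he y hy => ?_, b.ms.hol, b.ms.law, ⟨z1, z2, z3⟩,
    fun j F _ hF hJ => ⟨hF.1, ?_⟩, fun j F hF => aSEC n M _ _ τ p j F lp b.wt b.ms
      ⟨hF.1, hF.2.imp fun A h x hx => by simpa only [pow_zero, mul_one] using h x hx⟩,
    fun κ _ _ g hg => dom5 hA (Nat.cast_nonneg _) (Nat.cast_nonneg _) w.clo.toForm hΘ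
      (avg5 hψ.clo hS) κ g b.mem hg⟩, m, m0, rfl, rfl, rfl, ?_⟩
  · refine ((((xZMU n M 0 0 0 0).2.2.2.2 D.T D.T D.L D.L D.φ D.φ).2.2.2 D.wL m).2 e he y hy).trans ?_
    rw [D.cur e he y hy, smul_smul, Nat.cast_mul]
  · obtain ⟨-, A, hA⟩ := aZAR n M ι D m j τ _ F hN lρ
      ⟨fun e he y hy h => b.ms.hol e he y hy (sb h),
        fun e he e' he' x h h' ho => b.ms.law e he e' he' x h h' (sb ho)⟩
      (fun x hx => ⟨(eq.subset hx).2, fun h => (sb hx).not_ge (by simpa [h] using hC x)⟩)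
      (fun e he y hy h => hF.1 e he y hy (sb h)) (by simpa only [eq, mul_assoc] using hJ)
    refine ⟨A, fun x hx => ?_⟩
    rw [pow_zero, mul_one]
    have c := (((continuous_normSq.comp_continuousOn (TK.cont hF.1)).mul
      ((xLGT n M _ _ _ τ op b.wt b.ms).2.1.pow j)).continuousAt (op.mem_nhds hx))
    exact le_of_tendsto_of_frequently c
      (mem_closure_iff_frequently.1 ((xKIT n M _ _ hm lρ).2.1 x) |>.mono hA)
  · obtain ⟨A, hA⟩ := b.gro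
    refine ⟨A, hA.mono fun j hj => ?_⟩
    obtain ⟨r, g, g1, g2, g3⟩ := hj
    refine ⟨r, g, g1, g2, fun s => ?_⟩
    rw [one_mul]
    exact g3 s

end Pool.Agent.Lib.KN
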