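import Pool.Agent.Lib.KN.Dic5
import Pool.Agent.Lib.KN.Slo5
import Pool.Agent.Lib.KN.Neg5
import Pool.Agent.Lib.KN.Tk5
import Pool.Agent.Lib.KS.Dkp
import Pool.Agent.Lib.KU.All

/-! Project kn: the theorem. -/

open scoped Classical Topology ContDiff ComplexOrder Matrix Manifold
open Set Filter

noncomputable section

namespace Pool.Agent.Lib.KN

open Pool.Agent.Lib.SV (E Pluri)
open Pool.Agent.Lib.HS (Mat)
open Pool.Agent.Lib.HS32 hiding Mat
open Pool.Agent.Lib.GH Pool.Agent.Lib.K3S Pool.Agent.Lib.KS Pool.Agent.Lib.KF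

/-- The Kodaira dimension is at least the order of growth of the twisted tensors. -/
def St_KN : Prop := ∀ (n : ℕ) (X ι I : Type) [TopologicalSpace X] [ChartedSpace (E n) X]
  [IsManifold 𝓘(ℂ, E n) ω X] [CompactSpace X] [T2Space X] [ConnectedSpace X] [Fintype I]
  (G β : X → Mat n) (U : ι → Set X) (f : I → ι → X → ℂ) (u : I → ι → ι → X → ℂ) (a : I → ℚ)
  (v : ι → ι → X → ℂ) (q d : ℕ), 0 < n → Kaehler G → Semi n G β → Ctr n β U f u → Amp U u β f →
  (∀ k, 0 ≤ a k) → NefW n G β U u (fun k => -a k) → Coc n U v → Slope U G β u (fun k => -a k) v →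
  Many (TensN n U v q) d → Many (Pluri n X) d

theorem aKN : St_KN := by
  intro n X ι I _ _ _ _ _ _ _ G β U f u a v q d hn hG hβ hC hP ha hN hv hS ⟨C, hq⟩
  obtain ⟨n, rfl⟩ := Nat.exists_eq_add_one_of_ne_zero hn.ne'
  obtain ⟨c, c0, e, he⟩ := BRG.den ha
  obtain ⟨h, i, D, o⟩ := aBR0 _ X ι I G β U f u c e hn hG hβ hC c0 (by simpa only [he] using hN)
  have : h.M.Cpt := ⟨‹_›, ‹_›, ‹_›⟩
  have am := kAMP kKEY _ X ι I G β U f u c e h i D o hP
  obtain ⟨Λ, ψ, w, l, sl⟩ := slo5 o hv (by simpa only [he] using hS)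
  obtain ⟨P, p⟩ := dkp D
  obtain ⟨Y, m, m0, -, -, y1, y2⟩ := tk5 HS21.st_AUBIN P w
    (by
      simp only [Slp, ZE.Dt.th, p.H, p.T, p.β]
      exact sl)
    (mv5 am w p.law (C := C) (hq.mono fun b hb => by
      obtain ⟨k, s, s1, s2, s3⟩ := hb
      obtain ⟨V, t⟩ := dic5 h o.sub l s2 s3
      exact ⟨k, V, s1, t⟩)) (p.neg am)
  exact p.pl (GL3.gk KU.aK6 Y m0 y1 y2)

end Pool.Agent.Lib.KN
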